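import Pool.Agent.H57.KM.Defs

/-!
[H57 KM BASIC]  Elementary properties of the action and of the cones.

`act_mul`: `Matrix.mulVec_mulVec`, the map `Int.cast` is a ring homomorphism (`Matrix.map_mul`).
`act_linear`: `act g` is linear: `act_add`, `act_smul`.
`act_cont`: continuity (finite dimension).
`act_closure`: `act g` preserves the closure of an invariant set (continuity).
`interior_closure_eq`: for an open convex set `interior (closure C) = C` (`Convex.interior_closure_eq_interior_of_nonempty_interior`
or similar; `C` is convex by `add` and `smul`).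
`closure_add`, `closure_smul`, `add_mem` (closure point plus point of `C` is in `C`): limits; for `add_mem`:
`x ∈ closure C`, `y ∈ C`: `C - (open neighbourhood of 0 inside C - y)`: choose `x' ∈ C` close to `x` with
`y + (x - x') ∈ C`, then `x + y = x' + (y + (x - x'))`.
`exists_rat`: an open nonempty set contains a rational vector; for a cone an integral one (clear denominators).
-/

set_option autoImplicit false

namespace Pool.Agent.H57.KM

variable {n : ℕ}

theorem act_one (x : V n) : act 1 x = x := by
  unfold act
  rw [Units.val_one, Matrix.map_one _ Int.cast_zero Int.cast_one, Matrix.one_mulVec]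

theorem act_mul (g h : GL (Fin n) ℤ) (x : V n) : act (g * h) x = act g (act h x) := by
  unfold act
  rw [Matrix.mulVec_mulVec, Units.val_mul]
  congr 1
  exact Matrix.map_mul (f := Int.castRingHom ℝ)

theorem act_add (g : GL (Fin n) ℤ) (x y : V n) : act g (x + y) = act g x + act g y := by
  unfold act
  rw [Matrix.mulVec_add]

theorem act_smul (g : GL (Fin n) ℤ) (c : ℝ) (x : V n) : act g (c • x) = c • act g x := by
  unfold act
  rw [Matrix.mulVec_smul]

theorem act_cont (g : GL (Fin n) ℤ) : Continuous (act g) := by
  unfold act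
  exact Continuous.matrix_mulVec continuous_const continuous_id

/-- the action on rational vectors -/
theorem act_qR (g : GL (Fin n) ℤ) (q : Fin n → ℚ) :
    act g (qR q) = qR (((g : Matrix (Fin n) (Fin n) ℤ).map (Int.cast : ℤ → ℚ)).mulVec q) := by
  funext i
  unfold act qR
  simp only [Matrix.mulVec, dotProduct, Matrix.map_apply]
  push_cast
  rfl

/-- a matrix is determined by its action -/
theorem act_inj {g h : GL (Fin n) ℤ} (H : ∀ x : V n, act g x = act h x) : g = h := by
  apply Units.ext
  ext i j
  have h1 := congrFun (H (Pi.single j 1)) i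
  unfold act at h1
  rw [Matrix.mulVec_single_one, Matrix.mulVec_single_one] at h1
  simp only [Matrix.col_apply, Matrix.map_apply] at h1
  exact_mod_cast h1

theorem act_closure {C : Set (V n)} {g : GL (Fin n) ℤ} (h : ∀ x ∈ C, act g x ∈ C) :
    ∀ x ∈ closure C, act g x ∈ closure C := by
  intro x hx
  exact map_mem_closure (act_cont g) hx h

namespace IsAmp

variable {C : Set (V n)}

theorem convex (h : IsAmp C) : Convex ℝ C := by
  intro x hx y hy a b ha hb hab
  rcases ha.eq_or_lt with ha0 | ha0
  · rw [← ha0, zero_add] at hab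
    rw [← ha0, hab, zero_smul, zero_add, one_smul]
    exact hy
  · rcases hb.eq_or_lt with hb0 | hb0
    · rw [← hb0, add_zero] at hab
      rw [← hb0, hab, zero_smul, add_zero, one_smul]
      exact hx
    · exact h.add _ (h.smul a ha0 x hx) _ (h.smul b hb0 y hy)

theorem zero_closure (h : IsAmp C) : (0 : V n) ∈ closure C := by
  obtain ⟨x, hx⟩ := h.ne
  have h1 : Filter.Tendsto (fun k : ℕ => ((1 : ℝ) / ((k : ℝ) + 1)) • x) Filter.atTop (nhds 0) := by
    have h2 := (tendsto_one_div_add_atTop_nhds_zero_nat (𝕜 := ℝ)).smul_const x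
    simpa using h2
  refine mem_closure_of_tendsto h1 (Filter.Eventually.of_forall (fun k => ?_))
  exact h.smul _ (by positivity) x hx

theorem closure_add (h : IsAmp C) : ∀ x ∈ closure C, ∀ y ∈ closure C, x + y ∈ closure C := by
  intro x hx y hy
  exact map_mem_closure₂ continuous_add hx hy (fun a ha b hb => h.add a ha b hb)

theorem closure_smul (h : IsAmp C) : ∀ c : ℝ, 0 ≤ c → ∀ x ∈ closure C, c • x ∈ closure C := by
  intro c hc x hx
  rcases hc.eq_or_lt with hc0 | hc0
  · rw [← hc0, zero_smul]
    exact h.zero_closure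
  · exact map_mem_closure (continuous_const_smul c) hx (fun a ha => h.smul c hc0 a ha)

theorem add_mem (h : IsAmp C) : ∀ x ∈ closure C, ∀ y ∈ C, x + y ∈ C := by
  intro x hx y hy
  have hU : IsOpen {z : V n | y + (x - z) ∈ C} :=
    h.op.preimage (continuous_const.add (continuous_const.sub continuous_id))
  have hxU : x ∈ {z : V n | y + (x - z) ∈ C} := by
    change y + (x - x) ∈ C
    rw [sub_self, add_zero]
    exact hy
  obtain ⟨z, hzU, hzC⟩ := mem_closure_iff.1 hx _ hU hxU
  have h1 : x + y = z + (y + (x - z)) := by abel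
  rw [h1]
  exact h.add z hzC _ hzU

theorem interior_closure (h : IsAmp C) : interior (closure C) = C := by
  have h1 : (interior C).Nonempty := by
    rw [h.op.interior_eq]
    exact h.ne
  rw [h.convex.interior_closure_eq_interior_of_nonempty_interior h1, h.op.interior_eq]

end IsAmp

theorem exists_rat {U : Set (V n)} (hU : IsOpen U) (hne : U.Nonempty) : ∃ q : Fin n → ℚ, qR q ∈ U := by
  have hd : DenseRange (fun q : Fin n → ℚ => (qR q : V n)) :=
    DenseRange.piMap (fun _ => Rat.denseRange_cast (𝕜 := ℝ))
  exact hd.exists_mem_open hU hne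

theorem IsAmp.exists_int {C : Set (V n)} (h : IsAmp C) : ∃ s : Fin n → ℤ, toR s ∈ C := by
  obtain ⟨q, hq⟩ := exists_rat h.op h.ne
  obtain ⟨d, hd⟩ : ∃ d : ℕ, d = ∏ i, (q i).den := ⟨_, rfl⟩
  have hd0 : 0 < d := by
    rw [hd]
    exact Finset.prod_pos (fun i _ => (q i).den_pos)
  have h1 : ∀ i, ∃ z : ℤ, (z : ℚ) = (d : ℚ) * q i := by
    intro i
    obtain ⟨e, he⟩ : (q i).den ∣ d := by
      rw [hd]
      exact Finset.dvd_prod_of_mem _ (Finset.mem_univ i)
    refine ⟨(e : ℤ) * (q i).num, ?_⟩
    have h2 : q i * (q i).den = (q i).num := Rat.mul_den_eq_num (q i)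
    rw [he]
    push_cast
    rw [← h2]
    ring
  choose z hz using h1
  refine ⟨z, ?_⟩
  have h3 := h.smul (d : ℝ) (by exact_mod_cast hd0) _ hq
  convert h3 using 1
  funext i
  simp only [toR, qR, Pi.smul_apply, smul_eq_mul]
  have := congrArg (fun t : ℚ => (t : ℝ)) (hz i)
  push_cast at this
  exact this

end Pool.Agent.H57.KM
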