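import Pool.Agent.H57.KM.Coord

/-!
[H57 KM COVER]  A free abelian group of units of maximal rank is cocompact in the logarithmic space.

`K` totally real of degree `r + 1`: `r + 1` infinite places, all real, in bijection with the `σ : K →+* ℝ` (`w x = |σ x|`); `NumberField.Units.rank K = r`.
(1) `α(ℤ^r)` has finite index in `(𝓞 K)ˣ`: both have rank `r`.  More precisely there is `m ≥ 1` with `u ^ m ∈ range α` for all units `u`: the group
`(𝓞 K)ˣ ⧸ torsion` is free of rank `r` with basis; the images of the `α (e_i)` are `ℤ`-linearly independent there (`α` injective and `ℤ^r` torsion free: the kernel of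
`ℤ^r → (𝓞 K)ˣ ⧸ torsion` is mapped injectively into the finite group `torsion`, so it is zero), so the quotient is finitely generated torsion, finite.
(2) The log embedding: the vectors `L(u) = (log |σ u|)_σ` of the units lie in the hyperplane `∑ = 0` and form a lattice of full rank there (Mathlib: `NumberField.Units.dirichletUnitTheorem`,
`logEmbedding`, `unitLattice`, `unitLattice_span_eq_top`; it forgets one place `w₀`, whose coordinate is minus the sum of the others): there is `M₀` such that each `y` with `∑ y = 0` has a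
unit `u` with `|L(u) σ - y σ| ≤ M₀` for all `σ` (`ZSpan.floor`/`fract`, or the quotient by the lattice is compact).
(3) Given `y` take `u` for `y / (2 m)`; `u ^ m = α t'`, `t = t'^2` (multiplicative notation), `σ (α t) = σ(u)^(2m) > 0` and `log σ(α t) = 2 m log |σ u|`, so `M = 2 m M₀`.
-/

set_option autoImplicit false

namespace Pool.Agent.H57.KM

open Module NumberField

open NumberField.InfinitePlace in
/-- the place of a real embedding -/
noncomputable def plc {K : Type} [Field K] (σ : K →+* ℝ) : InfinitePlace K :=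
  InfinitePlace.mk (Complex.ofRealHom.comp σ)

theorem plc_apply {K : Type} [Field K] (σ : K →+* ℝ) (x : K) : plc σ x = |σ x| := by
  unfold plc
  rw [InfinitePlace.apply]
  simp [Complex.norm_real]

theorem plc_inj {K : Type} [Field K] : Function.Injective (plc (K := K)) := by
  intro σ τ h
  unfold plc at h
  rw [InfinitePlace.mk_eq_iff] at h
  rcases h with h | h
  · ext x
    have := RingHom.congr_fun h x
    simpa using this
  · ext x
    have := RingHom.congr_fun h x
    simpa [ComplexEmbedding.conjugate_coe_eq] using this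

theorem plc_surj {K : Type} [Field K] (hreal : ∀ χ : K →+* ℂ, ∀ k, (χ k).im = 0) :
    Function.Surjective (plc (K := K)) := by
  intro w
  have hr : ComplexEmbedding.IsReal w.embedding := by
    rw [ComplexEmbedding.isReal_iff]
    ext x
    rw [ComplexEmbedding.conjugate_coe_eq]
    exact Complex.conj_eq_iff_im.2 (hreal _ x)
  refine ⟨hr.embedding, ?_⟩
  unfold plc
  have h1 : Complex.ofRealHom.comp hr.embedding = w.embedding := by
    ext x
    exact ComplexEmbedding.IsReal.coe_embedding_apply hr x
  rw [h1, InfinitePlace.mk_embedding]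

theorem mult_one {K : Type} [Field K] (hreal : ∀ χ : K →+* ℂ, ∀ k, (χ k).im = 0)
    (w : InfinitePlace K) : w.mult = 1 := by
  have hr : w.IsReal := by
    rw [InfinitePlace.isReal_iff, ComplexEmbedding.isReal_iff]
    ext x
    rw [ComplexEmbedding.conjugate_coe_eq]
    exact Complex.conj_eq_iff_im.2 (hreal _ x)
  unfold InfinitePlace.mult
  rw [if_pos hr]

open NumberField.Units NumberField.Units.dirichletUnitTheorem in
/-- the logarithmic embedding of the values of `α` -/
noncomputable def logA {r : ℕ} {K : Type} [Field K] [NumberField K]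
    (α : Multiplicative (Fin r → ℤ) →* (𝓞 K)ˣ) : (Fin r → ℤ) →+ logSpace K where
  toFun n := logEmbedding K (Additive.ofMul (α (Multiplicative.ofAdd n)))
  map_zero' := by
    rw [ofAdd_zero, map_one, ofMul_one, map_zero]
  map_add' a b := by
    rw [ofAdd_add, map_mul, ofMul_mul, map_add]

open NumberField.Units NumberField.Units.dirichletUnitTheorem in
theorem logA_inj {r : ℕ} {K : Type} [Field K] [NumberField K]
    (α : Multiplicative (Fin r → ℤ) →* (𝓞 K)ˣ) (hα : Function.Injective α) (n : Fin r → ℤ)
    (h : logA α n = 0) : n = 0 := by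
  have h1 : α (Multiplicative.ofAdd n) ∈ torsion K := logEmbedding_eq_zero_iff.1 h
  rw [torsion, CommGroup.mem_torsion, isOfFinOrder_iff_pow_eq_one] at h1
  obtain ⟨m, hm, h2⟩ := h1
  rw [← map_pow] at h2
  have h3 : (Multiplicative.ofAdd n) ^ m = 1 := hα (by rw [h2, map_one])
  have h4 : m • n = 0 := h3
  rcases smul_eq_zero.1 h4 with h5 | h5
  · omega
  · exact h5

open NumberField.Units NumberField.Units.dirichletUnitTheorem in
theorem logA_span {r : ℕ} {K : Type} [Field K] [NumberField K]
    (α : Multiplicative (Fin r → ℤ) →* (𝓞 K)ˣ) (hα : Function.Injective α)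
    (hcard : Fintype.card (InfinitePlace K) = r + 1) (y : logSpace K) :
    ∃ c : Fin r → ℝ, y = ∑ i, c i • logA α (fun j => if i = j then 1 else 0) := by
  classical
  set v : Fin r → logSpace K := fun i => logA α (fun j => if i = j then 1 else 0) with hv
  have hsum : ∀ n : Fin r → ℤ, logA α n = ∑ i, n i • v i := fun n =>
    LinearMap.pi_apply_eq_sum_univ (logA α).toIntLinearMap n
  have hli : LinearIndependent ℤ v := by
    rw [Fintype.linearIndependent_iff]
    intro g hg i
    rw [← hsum] at hg
    have := logA_inj α hα g hg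
    rw [this]
    rfl
  have hsub : (Submodule.span ℤ (Set.range v) : Set (logSpace K)) ⊆ (unitLattice K : Set (logSpace K)) := by
    have h1 : Submodule.span ℤ (Set.range v) ≤ unitLattice K := by
      rw [Submodule.span_le]
      rintro x ⟨i, rfl⟩
      exact ⟨Additive.ofMul (α (Multiplicative.ofAdd (fun j => if i = j then 1 else 0))),
        Submodule.mem_top, rfl⟩
    exact h1
  have hdisc : DiscreteTopology (Submodule.span ℤ (Set.range v)) :=
    DiscreteTopology.of_subset (instDiscrete_unitLattice K) hsub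
  have hfr := Real.finrank_eq_int_finrank_of_discrete hdisc
  have hcz : Fintype.card (Fin r) = (Set.range v).finrank ℤ :=
    linearIndependent_iff_card_eq_finrank_span.1 hli
  have hlr : LinearIndependent ℝ v := by
    rw [linearIndependent_iff_card_eq_finrank_span, hcz, hfr]
  have hfin : finrank ℝ (logSpace K) = r := by
    rw [NumberField.Units.finrank_eq_rank, NumberField.Units.rank, hcard]
    rfl
  have htop : Submodule.span ℝ (Set.range v) = ⊤ :=
    hlr.span_eq_top_of_card_eq_finrank' (by rw [hfin, Fintype.card_fin])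
  have hy : y ∈ Submodule.span ℝ (Set.range v) := by
    rw [htop]
    exact Submodule.mem_top
  rw [Submodule.mem_span_range_iff_exists_fun] at hy
  obtain ⟨c, hc⟩ := hy
  exact ⟨c, hc.symm⟩

theorem cover {r : ℕ} {K : Type} [Field K] [NumberField K] [Fintype (K →+* ℝ)]
    (hreal : ∀ χ : K →+* ℂ, ∀ k, (χ k).im = 0)
    (hdeg : finrank ℚ K = r + 1) (α : Multiplicative (Fin r → ℤ) →* (𝓞 K)ˣ) (hα : Function.Injective α) :
    ∃ M : ℝ, ∀ y : (K →+* ℝ) → ℝ, ∑ σ, y σ = 0 → ∃ t, ∀ σ : K →+* ℝ,
      0 < σ (((α t : (𝓞 K)ˣ) : 𝓞 K) : K) ∧ |Real.log (σ (((α t : (𝓞 K)ˣ) : 𝓞 K) : K)) - y σ| ≤ M := by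
  classical
  let e : (K →+* ℝ) ≃ InfinitePlace K := Equiv.ofBijective plc ⟨plc_inj, plc_surj hreal⟩
  have he : ∀ σ x, (e σ) x = |σ x| := fun σ x => plc_apply σ x
  have hcard : Fintype.card (InfinitePlace K) = r + 1 := by
    rw [← hdeg, ← card_emb hreal, Nat.card_eq_fintype_card]
    exact (Fintype.card_congr e).symm
  let v : Fin r → Units.dirichletUnitTheorem.logSpace K :=
    fun i => logA α (fun j => if i = j then 1 else 0)
  have hv : ∀ i, v i = logA α (fun j => if i = j then 1 else 0) := fun _ => rfl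
  let B : {w : InfinitePlace K // w ≠ Units.dirichletUnitTheorem.w₀} → ℝ := fun w => ∑ i, |v i w|
  have hB : ∀ w, 0 ≤ B w := fun w => Finset.sum_nonneg fun i _ => abs_nonneg _
  refine ⟨∑ w, B w, ?_⟩
  intro y hy
  obtain ⟨c, hc⟩ := logA_span α hα hcard (fun w => y (e.symm w.1))
  let n : Fin r → ℤ := fun i => round (c i / 2)
  have hn : ∀ i, |2 * (n i : ℝ) - c i| ≤ 1 := by
    intro i
    have h1 := abs_sub_round (c i / 2)
    have h2 : 2 * (n i : ℝ) - c i = -(2 * (c i / 2 - (round (c i / 2) : ℤ))) := by
      change 2 * ((round (c i / 2) : ℤ) : ℝ) - c i = _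
      ring
    rw [h2, abs_neg, abs_mul, abs_two]
    linarith
  set u : (𝓞 K)ˣ := α (Multiplicative.ofAdd n) with hu
  have hlogu : logA α n = ∑ i, n i • v i :=
    LinearMap.pi_apply_eq_sum_univ (logA α).toIntLinearMap n
  let D : InfinitePlace K → ℝ := fun w => 2 * Real.log (w ((u : 𝓞 K) : K)) - y (e.symm w)
  have hD : ∀ w : {w : InfinitePlace K // w ≠ Units.dirichletUnitTheorem.w₀}, |D w.1| ≤ B w := by
    intro w
    have h3 : Real.log (w.1 ((u : 𝓞 K) : K)) = ∑ i, (n i : ℝ) * v i w := by
      have h4 : logA α n w = (w.1.mult : ℝ) * Real.log (w.1 ((u : 𝓞 K) : K)) := rfl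
      rw [mult_one hreal, Nat.cast_one, one_mul] at h4
      rw [← h4, hlogu, Finset.sum_apply]
      refine Finset.sum_congr rfl fun i _ => ?_
      rw [Pi.smul_apply, zsmul_eq_mul]
    have h5 : y (e.symm w.1) = ∑ i, c i * v i w := by
      have h6 := congrFun hc w
      rw [Finset.sum_apply] at h6
      exact h6
    have h7 : D w.1 = ∑ i, (2 * (n i : ℝ) - c i) * v i w := by
      change 2 * Real.log (w.1 ((u : 𝓞 K) : K)) - y (e.symm w.1) = _
      rw [h3, h5, Finset.mul_sum, ← Finset.sum_sub_distrib]
      refine Finset.sum_congr rfl fun i _ => ?_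
      ring
    rw [h7]
    refine (Finset.abs_sum_le_sum_abs _ _).trans (Finset.sum_le_sum fun i _ => ?_)
    rw [abs_mul]
    exact mul_le_of_le_one_left (abs_nonneg _) (hn i)
  have hsumD : ∑ w, D w = 0 := by
    have h8 := Units.sum_mult_mul_log u
    have h9 : ∑ w : InfinitePlace K, Real.log (w ((u : 𝓞 K) : K)) = 0 := by
      rw [← h8]
      refine Finset.sum_congr rfl fun w _ => ?_
      rw [mult_one hreal, Nat.cast_one, one_mul]
    have h10 : ∑ w : InfinitePlace K, y (e.symm w) = 0 := by
      rw [← hy]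
      exact Equiv.sum_comp e.symm y
    change ∑ w, (2 * Real.log (w ((u : 𝓞 K) : K)) - y (e.symm w)) = 0
    rw [Finset.sum_sub_distrib, ← Finset.mul_sum, h9, h10]
    ring
  have hDall : ∀ w, |D w| ≤ ∑ w, B w := by
    intro w
    by_cases hw : w = Units.dirichletUnitTheorem.w₀
    · rw [Fintype.sum_eq_add_sum_subtype_ne _ Units.dirichletUnitTheorem.w₀] at hsumD
      have h11 : D w = -∑ w : {w : InfinitePlace K // w ≠ Units.dirichletUnitTheorem.w₀}, D w.1 := by
        rw [hw]
        linarith
      rw [h11, abs_neg]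
      exact (Finset.abs_sum_le_sum_abs _ _).trans (Finset.sum_le_sum fun i _ => hD i)
    · exact (hD ⟨w, hw⟩).trans
        (Finset.single_le_sum (f := B) (fun i _ => hB i) (Finset.mem_univ _))
  refine ⟨(Multiplicative.ofAdd n) ^ 2, ?_⟩
  intro σ
  have hsq : σ (((α ((Multiplicative.ofAdd n) ^ 2) : (𝓞 K)ˣ) : 𝓞 K) : K) =
      (σ ((u : 𝓞 K) : K)) ^ 2 := by
    have h14 : α ((Multiplicative.ofAdd n) ^ 2) = u ^ 2 := by rw [map_pow]
    rw [h14, Units.val_pow_eq_pow_val]
    simp
  have hne : σ ((u : 𝓞 K) : K) ≠ 0 := by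
    rw [Ne, map_eq_zero]
    exact Units.coe_ne_zero u
  rw [hsq]
  refine ⟨by positivity, ?_⟩
  have h12 := hDall (e σ)
  have h13 : D (e σ) = Real.log ((σ ((u : 𝓞 K) : K)) ^ 2) - y σ := by
    change 2 * Real.log ((e σ) ((u : 𝓞 K) : K)) - y (e.symm (e σ)) = _
    rw [he, e.symm_apply_apply, Real.log_abs, Real.log_pow]
    norm_num
  rw [← h13]
  exact h12

end Pool.Agent.H57.KM
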