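import Pool.Agent.H57.KM.FRank

/-!
[H57 KM REDRANK]  The rank of a group of integral units of a finite dimensional commutative `ℚ`-algebra.

`E` finite dimensional over `ℚ`, commutative, so Artinian: finitely many maximal ideals `m` (`MaximalSpectrum E` is finite), each `E ⧸ m` is a number
field (characteristic `0`, finite dimensional).
`red_dim`: `∑ m, finrank ℚ (E ⧸ m) + finrank ℚ (nilradical E) = finrank ℚ E`: `E ⧸ nilradical E ≃ ∏ m, E ⧸ m` (`IsArtinianRing.equivPi` for the reduced
ring, or the Chinese remainder theorem `Ideal.quotientInfRingEquivPiQuotient` with `nilradical = ⨅ maximal ideals`), rank-nullity.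
`red_rank`: order the maximal ideals `m_1, ..., m_k` (induction over a `Finset` of maximal ideals `S`, for the submodule `T_S = {t | α t - 1 ∈ ⨅_{m ∈ S} m}`): by `field_rank` for
`K = E ⧸ m`, `β = Units.map (Ideal.Quotient.mk m) ∘ α` (images of integral elements are integral) and `T = T_S`: `T ⊓ sub β ⊥ = T_(insert m S)`, so
`finrank T_S + 1 ≤ finrank T_(insert m S) + finrank ℚ (E ⧸ m)`.  Sum up: `r + k ≤ finrank (sub α (nilradical E)) + ∑ finrank ℚ (E ⧸ m)`.  If `χ : E →+* ℂ` has a non-real value,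
its kernel is a prime, hence maximal ideal `m₀` and `χ` factors through `E ⧸ m₀`: one more.
-/

set_option autoImplicit false

namespace Pool.Agent.H57.KM

open Module

theorem red_dim {E : Type} [CommRing E] [Algebra ℚ E] [Module.Finite ℚ E] [Fintype (MaximalSpectrum E)] :
    ∑ m : MaximalSpectrum E, finrank ℚ (E ⧸ m.asIdeal) + finrank ℚ ((nilradical E).restrictScalars ℚ) =
      finrank ℚ E := by
  classical
  have hart : IsArtinianRing E := IsArtinianRing.of_finite ℚ E
  have h1 : finrank ℚ (E ⧸ nilradical E) = ∑ m : MaximalSpectrum E, finrank ℚ (E ⧸ m.asIdeal) := by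
    rw [← Module.finrank_pi_fintype ℚ]
    exact LinearEquiv.finrank_eq
      ((IsArtinianRing.quotNilradicalEquivPi (R := E)).restrictScalars ℚ).toLinearEquiv
  rw [← h1]
  let f : E →ₗ[ℚ] (E ⧸ nilradical E) := (Ideal.Quotient.mkₐ ℚ (nilradical E)).toLinearMap
  have hf : Function.Surjective f := Ideal.Quotient.mkₐ_surjective ℚ (nilradical E)
  have h2 : LinearMap.range f = ⊤ := LinearMap.range_eq_top.2 hf
  have h3 : LinearMap.ker f = (nilradical E).restrictScalars ℚ := by
    ext x
    rw [LinearMap.mem_ker, Submodule.restrictScalars_mem]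
    exact Ideal.Quotient.eq_zero_iff_mem
  have h4 := LinearMap.finrank_range_add_finrank_ker f
  rw [h2, h3, finrank_top] at h4
  exact h4

theorem red_step_field {E : Type} [CommRing E] [Algebra ℚ E] {K : Type} [Field K] [NumberField K]
    (π : E →+* K) {r : ℕ}
    (α : Multiplicative (Fin r → ℤ) →* Eˣ) (hint : ∀ t, IsIntegral ℤ ((α t : Eˣ) : E))
    (m : Ideal E) (hm : RingHom.ker π = m) (J : Ideal E) :
    finrank ℤ (sub α J) + 1 ≤ finrank ℤ (sub α (J ⊓ m)) + finrank ℚ K ∧
      ((∃ χ : K →+* ℂ, ∃ k, (χ k).im ≠ 0) →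
        finrank ℤ (sub α J) + 2 ≤ finrank ℤ (sub α (J ⊓ m)) + finrank ℚ K) := by
  let β : Multiplicative (Fin r → ℤ) →* Kˣ := (Units.map (π : E →* K)).comp α
  have hβ : ∀ t, ((β t : Kˣ) : K) = π ((α t : Eˣ) : E) := fun t => rfl
  have h1 : (sub α J ⊓ sub β ⊥ : Submodule ℤ (Fin r → ℤ)) = sub α (J ⊓ m) := by
    ext t
    rw [Submodule.mem_inf, mem_sub, mem_sub, mem_sub, Ideal.mem_inf, hβ, ← hm, RingHom.mem_ker,
      map_sub, map_one, Ideal.mem_bot]
  have h2 := field_rank β (fun t => by
    rw [hβ]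
    exact (hint t).map (π.toIntAlgHom)) (sub α J)
  rw [h1] at h2
  exact h2

theorem red_step {E : Type} [CommRing E] [Algebra ℚ E] [Module.Finite ℚ E] {r : ℕ}
    (α : Multiplicative (Fin r → ℤ) →* Eˣ) (hint : ∀ t, IsIntegral ℤ ((α t : Eˣ) : E))
    (m : Ideal E) [hm : m.IsMaximal] (J : Ideal E) :
    finrank ℤ (sub α J) + 1 ≤ finrank ℤ (sub α (J ⊓ m)) + finrank ℚ (E ⧸ m) ∧
      ((∃ χ : (E ⧸ m) →+* ℂ, ∃ k, (χ k).im ≠ 0) →
        finrank ℤ (sub α J) + 2 ≤ finrank ℤ (sub α (J ⊓ m)) + finrank ℚ (E ⧸ m)) := by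
  classical
  have hnt : Nontrivial (E ⧸ m) := Ideal.Quotient.nontrivial_iff.2 hm.ne_top
  have hcz : CharZero (E ⧸ m) := algebraRat.charZero _
  have hfd : Module.Finite ℚ (E ⧸ m) := inferInstance
  let F : Field (E ⧸ m) := Ideal.Quotient.field m
  have hsub : (DivisionRing.toRatAlgebra : Algebra ℚ (E ⧸ m)) = Ideal.Quotient.algebra ℚ :=
    Subsingleton.elim _ _
  have hfin : (@finrank ℚ (E ⧸ m) _ _ (DivisionRing.toRatAlgebra (R := E ⧸ m)).toModule) =
      @finrank ℚ (E ⧸ m) _ _ (Ideal.Quotient.algebra ℚ).toModule := by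
    rw [hsub]
  have hnf : NumberField (E ⧸ m) :=
    { to_charZero := hcz
      to_finiteDimensional := by
        rw [hsub]
        exact hfd }
  have h3 := red_step_field (K := E ⧸ m) (Ideal.Quotient.mk m) α hint m Ideal.mk_ker J
  rw [hfin] at h3
  exact h3

theorem red_rank {E : Type} [CommRing E] [Algebra ℚ E] [Module.Finite ℚ E] {r : ℕ}
    (α : Multiplicative (Fin r → ℤ) →* Eˣ) (hint : ∀ t, IsIntegral ℤ ((α t : Eˣ) : E)) :
    r + Nat.card (MaximalSpectrum E) + finrank ℚ ((nilradical E).restrictScalars ℚ) ≤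
        finrank ℤ (sub α (nilradical E)) + finrank ℚ E ∧
      ((∃ χ : E →+* ℂ, ∃ e, (χ e).im ≠ 0) →
        r + Nat.card (MaximalSpectrum E) + finrank ℚ ((nilradical E).restrictScalars ℚ) + 1 ≤
          finrank ℤ (sub α (nilradical E)) + finrank ℚ E) := by
  classical
  have hart : IsArtinianRing E := IsArtinianRing.of_finite ℚ E
  have hft : Fintype (MaximalSpectrum E) := Fintype.ofFinite _
  have hdim := red_dim (E := E)
  have hnil : nilradical E = (Finset.univ : Finset (MaximalSpectrum E)).inf MaximalSpectrum.asIdeal := by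
    rw [IsArtinianRing.nilradical_eq_iInf, Finset.inf_univ_eq_iInf]
  have hcl : ∀ S : Finset (MaximalSpectrum E), r + S.card ≤
      finrank ℤ (sub α (S.inf MaximalSpectrum.asIdeal)) + ∑ m ∈ S, finrank ℚ (E ⧸ m.asIdeal) := by
    intro S
    induction S using Finset.induction_on with
    | empty =>
      have h1 : sub α (⊤ : Ideal E) = ⊤ := by
        rw [eq_top_iff]
        intro t _
        rw [mem_sub]
        exact Submodule.mem_top
      rw [Finset.inf_empty, h1, finrank_top, Finset.card_empty, Finset.sum_empty]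
      simp
    | insert m S hmS ih =>
      rw [Finset.inf_insert, Finset.sum_insert hmS, Finset.card_insert_of_notMem hmS, inf_comm]
      have h2 := (red_step α hint m.asIdeal (hm := m.isMaximal) (S.inf MaximalSpectrum.asIdeal)).1
      omega
  have hcard : Nat.card (MaximalSpectrum E) = (Finset.univ : Finset (MaximalSpectrum E)).card := by
    rw [Nat.card_eq_fintype_card, Finset.card_univ]
  constructor
  · have h3 := hcl Finset.univ
    rw [← hnil] at h3
    rw [hcard]
    omega
  · rintro ⟨χ, e, he⟩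
    have hpr : (RingHom.ker χ).IsPrime := RingHom.ker_isPrime χ
    have hmx : (RingHom.ker χ).IsMaximal := IsArtinianRing.isPrime_iff_isMaximal _ |>.1 hpr
    let m₀ : MaximalSpectrum E := ⟨RingHom.ker χ, hmx⟩
    have h4 := hcl (Finset.univ.erase m₀)
    have h5 := (red_step α hint m₀.asIdeal (hm := m₀.isMaximal)
      ((Finset.univ.erase m₀).inf MaximalSpectrum.asIdeal)).2
      ⟨Ideal.Quotient.lift m₀.asIdeal χ (fun a ha => RingHom.mem_ker.1 ha),
        Ideal.Quotient.mk m₀.asIdeal e, by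
          rw [Ideal.Quotient.lift_mk]
          exact he⟩
    have h6 : (Finset.univ.erase m₀).inf MaximalSpectrum.asIdeal ⊓ m₀.asIdeal = nilradical E := by
      rw [hnil, inf_comm, ← Finset.inf_insert, Finset.insert_erase (Finset.mem_univ m₀)]
    rw [h6] at h5
    have h7 : ∑ m : MaximalSpectrum E, finrank ℚ (E ⧸ m.asIdeal) =
        finrank ℚ (E ⧸ m₀.asIdeal) + ∑ m ∈ Finset.univ.erase m₀, finrank ℚ (E ⧸ m.asIdeal) :=
      (Finset.add_sum_erase Finset.univ (fun m : MaximalSpectrum E => finrank ℚ (E ⧸ m.asIdeal))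
        (Finset.mem_univ m₀)).symm
    have h8 : (Finset.univ.erase m₀).card + 1 = (Finset.univ : Finset (MaximalSpectrum E)).card :=
      Finset.card_erase_add_one (Finset.mem_univ m₀)
    rw [hcard]
    omega

end Pool.Agent.H57.KM
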