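import Pool.Agent.H57.KM.Defs

/-!
[H57 KM UNIP]  The rank of the unipotent part.

`E` is a finite dimensional commutative `ℚ`-algebra, `α : ℤ^r → Eˣ` injective, `sub α J = {t | α t - 1 ∈ J}` for an ideal `J`.
`zrank_le`: a `ℤ`-submodule of a finite dimensional `ℚ`-vector space has rank at most the dimension: `ℤ`-linearly independent families are
`ℚ`-linearly independent (`LinearIndependent.iff_fractionRing`).
`step`: ideals `J' ≤ J` with `J * J ≤ J'`: the map `sub α J → J / J'` (quotient of `ℚ`-vector spaces, or of abelian groups), `t ↦ α t - 1`, is additive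
(`(uv - 1) - (u - 1) - (v - 1) = (u - 1)(v - 1)`), its kernel is `sub α J'`, and its image has rank `≤ dim J - dim J'` (`zrank_le`).
`unip_rank`: `I = nilradical E` is nilpotent (`E` is Artinian).  If `I = ⊥`: `sub α ⊥ = ⊥` (injectivity).  If `I ≠ ⊥`: let `s ≥ 1` be such that `I ^ s ≠ ⊥`,
`I ^ (s+1) = ⊥`.  For `t ∈ sub α (I^s)`: `α t = 1 + z`, `z ^ 2 ∈ I ^ (2s) ≤ I ^ (s+1) = ⊥`, so `z = 0` by `hcond` and `t = 0`.  `step` for `J = I^j`, `J' = I^(j+1)`, `1 ≤ j < s`, gives
`rank (sub α I) ≤ dim I - dim I^s < dim I`.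
-/

set_option autoImplicit false

namespace Pool.Agent.H57.KM

open Module

variable {E : Type} [CommRing E] [Algebra ℚ E]

/-- the elements of `ℤ^r` with value congruent to `1` modulo `J` -/
def sub {r : ℕ} (α : Multiplicative (Fin r → ℤ) →* Eˣ) (J : Ideal E) : Submodule ℤ (Fin r → ℤ) :=
  AddSubgroup.toIntSubmodule
    { carrier := {t | ((α (Multiplicative.ofAdd t) : Eˣ) : E) - 1 ∈ J}
      zero_mem' := by simp
      add_mem' := by
        intro a b ha hb
        simp only [Set.mem_setOf_eq, ofAdd_add, map_mul, Units.val_mul] at *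
        have h := J.add_mem (J.mul_mem_left ((α (Multiplicative.ofAdd a) : Eˣ) : E) hb) ha
        convert h using 1
        ring
      neg_mem' := by
        intro a ha
        simp only [Set.mem_setOf_eq, ofAdd_neg, map_inv] at *
        have h := J.mul_mem_left (-(((α (Multiplicative.ofAdd a))⁻¹ : Eˣ) : E)) ha
        convert h using 1
        rw [mul_sub, mul_one, neg_mul, Units.inv_mul]
        ring }

theorem mem_sub {r : ℕ} (α : Multiplicative (Fin r → ℤ) →* Eˣ) (J : Ideal E) (t : Fin r → ℤ) :
    t ∈ sub α J ↔ ((α (Multiplicative.ofAdd t) : Eˣ) : E) - 1 ∈ J := Iff.rfl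

theorem zrank_le {M : Type} [AddCommGroup M] [Module ℚ M] [Module.Finite ℚ M] (N : Submodule ℤ M) :
    finrank ℤ N ≤ finrank ℚ M := by
  have h1 : Module.rank ℤ M = Module.rank ℚ M :=
    (IsLocalization.rank_eq (R := ℤ) ℚ (nonZeroDivisors ℤ) le_rfl).symm
  have h2 : Module.rank ℤ N ≤ Module.rank ℤ M := Submodule.rank_le N
  rw [h1] at h2
  exact Cardinal.toNat_le_toNat h2 (Module.rank_lt_aleph0 ℚ M)

theorem step [Module.Finite ℚ E] {r : ℕ} (α : Multiplicative (Fin r → ℤ) →* Eˣ) (J J' : Ideal E) (h1 : J' ≤ J)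
    (h2 : J * J ≤ J') :
    finrank ℤ (sub α J) + finrank ℚ (J'.restrictScalars ℚ) ≤
      finrank ℤ (sub α J') + finrank ℚ (J.restrictScalars ℚ) := by
  classical
  let f : (J.restrictScalars ℚ) →ₗ[ℚ] (E ⧸ (J'.restrictScalars ℚ)) :=
    (J'.restrictScalars ℚ).mkQ.comp (J.restrictScalars ℚ).subtype
  have hker : finrank ℚ (LinearMap.ker f) = finrank ℚ (J'.restrictScalars ℚ) := by
    have h3 : LinearMap.ker f = (J'.restrictScalars ℚ).comap (J.restrictScalars ℚ).subtype := by
      rw [LinearMap.ker_comp, Submodule.ker_mkQ]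
    rw [h3]
    exact LinearEquiv.finrank_eq (Submodule.comapSubtypeEquivOfLe (p := J'.restrictScalars ℚ)
      (q := J.restrictScalars ℚ) h1)
  have hrn : finrank ℚ (LinearMap.range f) + finrank ℚ (LinearMap.ker f) =
      finrank ℚ (J.restrictScalars ℚ) := LinearMap.finrank_range_add_finrank_ker f
  let φ : (sub α J) →+ (LinearMap.range f) :=
    { toFun := fun t => ⟨f ⟨((α (Multiplicative.ofAdd t.1) : Eˣ) : E) - 1, t.2⟩, ⟨_, rfl⟩⟩
      map_zero' := by
        apply Subtype.ext
        change (J'.restrictScalars ℚ).mkQ _ = 0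
        rw [Submodule.mkQ_apply, Submodule.Quotient.mk_eq_zero]
        simp
      map_add' := by
        intro a b
        apply Subtype.ext
        change (J'.restrictScalars ℚ).mkQ _ = (J'.restrictScalars ℚ).mkQ _ + (J'.restrictScalars ℚ).mkQ _
        rw [← map_add, ← sub_eq_zero, ← map_sub, Submodule.mkQ_apply,
          Submodule.Quotient.mk_eq_zero]
        change _ ∈ J'
        have h4 : (((α (Multiplicative.ofAdd a.1) : Eˣ) : E) - 1) *
            (((α (Multiplicative.ofAdd b.1) : Eˣ) : E) - 1) ∈ J' :=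
          h2 (Ideal.mul_mem_mul a.2 b.2)
        convert h4 using 1
        simp only [Submodule.coe_add, ofAdd_add, map_mul, Units.val_mul, Submodule.subtype_apply]
        ring }
  let ψ : (sub α J) →ₗ[ℤ] (LinearMap.range f) := φ.toIntLinearMap
  have hkerψ : LinearMap.ker ψ = (sub α J').comap (sub α J).subtype := by
    ext t
    rw [LinearMap.mem_ker, Submodule.mem_comap, Submodule.subtype_apply, mem_sub]
    change φ t = 0 ↔ _
    rw [← Subtype.coe_inj]
    change (J'.restrictScalars ℚ).mkQ _ = 0 ↔ _
    rw [Submodule.mkQ_apply, Submodule.Quotient.mk_eq_zero]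
    exact Iff.rfl
  have hsub : sub α J' ≤ sub α J := fun t ht => h1 ht
  have hfk : finrank ℤ (LinearMap.ker ψ) = finrank ℤ (sub α J') := by
    rw [hkerψ]
    exact LinearEquiv.finrank_eq (Submodule.comapSubtypeEquivOfLe hsub)
  have hqr : finrank ℤ ((sub α J) ⧸ LinearMap.ker ψ) = finrank ℤ (LinearMap.range ψ) :=
    LinearEquiv.finrank_eq ψ.quotKerEquivRange
  have hrn2 : finrank ℤ ((sub α J) ⧸ LinearMap.ker ψ) + finrank ℤ (LinearMap.ker ψ) =
      finrank ℤ (sub α J) := Submodule.finrank_quotient_add_finrank _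
  have hz := zrank_le (LinearMap.range ψ)
  omega

theorem unip_rank [Module.Finite ℚ E] {r : ℕ} (α : Multiplicative (Fin r → ℤ) →* Eˣ)
    (hα : Function.Injective α)
    (hcond : ∀ t, ∀ z : E, z ^ 2 = 0 → ((α t : Eˣ) : E) = 1 + z → z = 0) :
    finrank ℤ (sub α (nilradical E)) ≤ finrank ℚ ((nilradical E).restrictScalars ℚ) ∧
      (nilradical E ≠ ⊥ →
        finrank ℤ (sub α (nilradical E)) < finrank ℚ ((nilradical E).restrictScalars ℚ)) := by
  classical
  have hart : IsArtinianRing E := IsArtinianRing.of_finite ℚ E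
  by_cases hI : nilradical E = ⊥
  · have h1 : sub α (nilradical E) = ⊥ := by
      rw [hI, Submodule.eq_bot_iff]
      intro t ht
      rw [mem_sub, Submodule.mem_bot, sub_eq_zero] at ht
      have h2 : α (Multiplicative.ofAdd t) = 1 := Units.ext ht
      have h3 : Multiplicative.ofAdd t = 1 := hα (by rw [h2, map_one])
      exact h3
    rw [h1]
    refine ⟨?_, fun h => absurd hI h⟩
    rw [finrank_bot]
    exact Nat.zero_le _
  · have hex : ∃ n, (nilradical E) ^ n = ⊥ := IsArtinianRing.isNilpotent_nilradical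
    have hm := Nat.find_spec hex
    have hmin : ∀ n, n < Nat.find hex → (nilradical E) ^ n ≠ ⊥ := fun n hn => Nat.find_min hex hn
    set m := Nat.find hex with hmdef
    have hm2 : 2 ≤ m := by
      by_contra hlt
      have h3 : m = 0 ∨ m = 1 := by omega
      rcases h3 with h | h
      · rw [h, pow_zero, Ideal.one_eq_top] at hm
        apply hI
        rw [eq_bot_iff, ← hm]
        exact le_top
      · rw [h, pow_one] at hm
        exact hI hm
    obtain ⟨s, hs⟩ : ∃ s, m = s + 1 := ⟨m - 1, by omega⟩
    have hs1 : 1 ≤ s := by omega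
    rw [hs] at hm
    have hIs : (nilradical E) ^ s ≠ ⊥ := hmin s (by omega)
    have hsubs : sub α ((nilradical E) ^ s) = ⊥ := by
      rw [Submodule.eq_bot_iff]
      intro t ht
      rw [mem_sub] at ht
      have h4 : (((α (Multiplicative.ofAdd t) : Eˣ) : E) - 1) ^ 2 = 0 := by
        have h5 : (((α (Multiplicative.ofAdd t) : Eˣ) : E) - 1) ^ 2 ∈ (nilradical E) ^ (s + 1) := by
          have h6 : (((α (Multiplicative.ofAdd t) : Eˣ) : E) - 1) ^ 2 ∈ (nilradical E) ^ (s + s) := by
            rw [sq, pow_add]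
            exact Ideal.mul_mem_mul ht ht
          exact Ideal.pow_le_pow_right (by omega) h6
        rw [hm] at h5
        exact h5
      have h7 := hcond (Multiplicative.ofAdd t) _ h4 (by ring)
      rw [sub_eq_zero] at h7
      have h8 : α (Multiplicative.ofAdd t) = 1 := Units.ext h7
      have h9 : Multiplicative.ofAdd t = 1 := hα (by rw [h8, map_one])
      exact h9
    have hind : ∀ j, 1 ≤ j → finrank ℤ (sub α (nilradical E)) +
        finrank ℚ (((nilradical E) ^ j).restrictScalars ℚ) ≤
        finrank ℤ (sub α ((nilradical E) ^ j)) + finrank ℚ ((nilradical E).restrictScalars ℚ) := by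
      intro j hj
      induction j, hj using Nat.le_induction with
      | base => rw [pow_one]
      | succ j hj ih =>
        have h10 := step α ((nilradical E) ^ j) ((nilradical E) ^ (j + 1))
          (Ideal.pow_le_pow_right (by omega)) (by
            rw [← pow_add]
            exact Ideal.pow_le_pow_right (by omega))
        omega
    have h11 := hind s hs1
    rw [hsubs, finrank_bot] at h11
    have h12 : 0 < finrank ℚ (((nilradical E) ^ s).restrictScalars ℚ) := by
      have h13 : Nontrivial (((nilradical E) ^ s).restrictScalars ℚ) := by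
        rw [Submodule.nontrivial_iff_ne_bot]
        intro h14
        apply hIs
        rw [eq_bot_iff]
        intro x hx
        have h15 : x ∈ ((nilradical E) ^ s).restrictScalars ℚ := hx
        rw [h14] at h15
        exact h15
      exact Module.finrank_pos
    have h16 : finrank ℤ (sub α (nilradical E)) < finrank ℚ ((nilradical E).restrictScalars ℚ) := by
      omega
    exact ⟨h16.le, fun _ => h16⟩

end Pool.Agent.H57.KM
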