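import Pool.Agent.H57.KM.Defs

/-!
[H57 KM MW]  Minkowski-Weyl (one direction, rational): a cone given by finitely many integral linear inequalities is a
rational polyhedral cone.  Imports only `Defs`.

Proof (double description).  Induction on the finset `T` of inequalities.  `T = ∅`: the whole space is generated by
the `± e_i`.  Step: let `P = {x | ∀ t ∈ T, 0 ≤ t·x}` be generated by the finite set `S` of integral vectors and `l` a new integral
functional.  Let `S' = {s ∈ S | 0 ≤ l·s} ∪ {(l·s) t - (l·t) s | s, t ∈ S, 0 < l·s, l·t < 0}` (integral vectors).  All the vectors of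
`S'` lie in `P ∩ {l ≥ 0}` (the last ones satisfy `l·v = 0`; they are nonnegative combinations of `s` and `t`).
Conversely let `x = ∑ c_s s`, `c ≥ 0`, `l·x ≥ 0`.  With `a_s = c_s (l·s)` for `s ∈ S₊` and `b_t = -c_t (l·t)` for `t ∈ S₋`:
`A = ∑ a_s ≥ B = ∑ b_t` (`l·x = A - B`).  If `B = 0` all the `c_t`, `t ∈ S₋`, vanish and `x` is a combination of
`S₀ ∪ S₊`.  If `B > 0` then `A > 0` and
`x = ∑_{S₀} c_s s + (1 - B/A) ∑_{S₊} c_s s + ∑_{s ∈ S₊, t ∈ S₋} (c_s c_t / A) ((l·s) t - (l·t) s)`
(coefficient of `t`: `∑_s c_s c_t (l·s)/A = c_t`; coefficient of `s`: `∑_t c_s c_t (-(l·t))/A = c_s B/A`).  Work with the generated set as the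
`Submodule.span` over `ℝ≥0` or directly with the predicate: closed under addition and nonnegative multiples, contains the generators.
-/

set_option autoImplicit false

namespace Pool.Agent.H57.KM

open Finset

/-- nonnegative combinations of `S` -/
def gen {n : ℕ} (S : Finset (Fin n → ℤ)) (x : V n) : Prop :=
  ∃ c : (Fin n → ℤ) → ℝ, (∀ s, 0 ≤ c s) ∧ x = ∑ s ∈ S, c s • toR s

theorem gen_mem {n : ℕ} {S : Finset (Fin n → ℤ)} {s : Fin n → ℤ} (hs : s ∈ S) : gen S (toR s) := by
  classical
  refine ⟨fun t => if t = s then 1 else 0, fun t => by dsimp only; split_ifs <;> norm_num, ?_⟩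
  rw [Finset.sum_eq_single s]
  · simp
  · intro t _ ht
    dsimp only
    rw [if_neg ht, zero_smul]
  · intro h
    exact absurd hs h

theorem gen_add {n : ℕ} {S : Finset (Fin n → ℤ)} {x y : V n} (hx : gen S x) (hy : gen S y) :
    gen S (x + y) := by
  obtain ⟨c, hc, rfl⟩ := hx
  obtain ⟨d, hd, rfl⟩ := hy
  refine ⟨fun s => c s + d s, fun s => add_nonneg (hc s) (hd s), ?_⟩
  rw [← Finset.sum_add_distrib]
  exact Finset.sum_congr rfl fun s _ => (add_smul _ _ _).symm

theorem gen_smul {n : ℕ} {S : Finset (Fin n → ℤ)} {x : V n} {a : ℝ} (ha : 0 ≤ a) (hx : gen S x) :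
    gen S (a • x) := by
  obtain ⟨c, hc, rfl⟩ := hx
  refine ⟨fun s => a * c s, fun s => mul_nonneg ha (hc s), ?_⟩
  rw [Finset.smul_sum]
  exact Finset.sum_congr rfl fun s _ => (mul_smul _ _ _).symm

theorem gen_zero {n : ℕ} {S : Finset (Fin n → ℤ)} : gen S (0 : V n) :=
  ⟨fun _ => 0, fun _ => le_rfl, by simp⟩

theorem gen_sum {n : ℕ} {S : Finset (Fin n → ℤ)} {ι : Type*} (I : Finset ι) (f : ι → V n)
    (h : ∀ i ∈ I, gen S (f i)) : gen S (∑ i ∈ I, f i) := by
  classical
  induction I using Finset.induction_on with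
  | empty => exact gen_zero
  | insert a I ha ih =>
    rw [Finset.sum_insert ha]
    exact gen_add (h a (Finset.mem_insert_self _ _))
      (ih fun i hi => h i (Finset.mem_insert_of_mem hi))

/-- the linear form given by `t` -/
noncomputable def dt {n : ℕ} (t : Fin n → ℤ) (x : V n) : ℝ := ∑ i, (t i : ℝ) * x i

theorem dt_add {n : ℕ} (t : Fin n → ℤ) (x y : V n) : dt t (x + y) = dt t x + dt t y := by
  unfold dt
  rw [← Finset.sum_add_distrib]
  exact Finset.sum_congr rfl fun i _ => by rw [Pi.add_apply]; ring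

theorem dt_smul {n : ℕ} (t : Fin n → ℤ) (a : ℝ) (x : V n) : dt t (a • x) = a * dt t x := by
  unfold dt
  rw [Finset.mul_sum]
  exact Finset.sum_congr rfl fun i _ => by rw [Pi.smul_apply, smul_eq_mul]; ring

theorem dt_zero {n : ℕ} (t : Fin n → ℤ) : dt t (0 : V n) = 0 := by
  simp [dt]

theorem dt_sum {n : ℕ} (t : Fin n → ℤ) {ι : Type*} (I : Finset ι) (f : ι → V n) :
    dt t (∑ i ∈ I, f i) = ∑ i ∈ I, dt t (f i) := by
  classical
  induction I using Finset.induction_on with
  | empty => simp [dt_zero]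
  | insert a I ha ih => rw [Finset.sum_insert ha, Finset.sum_insert ha, dt_add, ih]

theorem dt_toR {n : ℕ} (t s : Fin n → ℤ) : dt t (toR s) = ((∑ i, t i * s i : ℤ) : ℝ) := by
  unfold dt toR
  push_cast
  rfl

theorem toR_comb {n : ℕ} (a b : ℤ) (s t : Fin n → ℤ) :
    toR (a • t - b • s) = (a : ℝ) • toR t + (-(b : ℝ)) • toR s := by
  funext i
  simp only [toR, Pi.sub_apply, Pi.smul_apply, Pi.add_apply, smul_eq_mul]
  push_cast
  ring

theorem gen_univ {n : ℕ} (x : V n) :
    gen ((univ.image fun i : Fin n => (Pi.single i 1 : Fin n → ℤ)) ∪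
      (univ.image fun i : Fin n => (-Pi.single i 1 : Fin n → ℤ))) x := by
  classical
  have hx : x = ∑ i, x i • toR (Pi.single i 1 : Fin n → ℤ) := by
    funext j
    rw [Finset.sum_apply, Finset.sum_eq_single j]
    · simp [toR]
    · intro i _ hi
      simp [toR, hi.symm]
    · intro h
      exact absurd (Finset.mem_univ j) h
  rw [hx]
  apply gen_sum
  intro i _
  rcases le_total 0 (x i) with h | h
  · apply gen_smul h
    apply gen_mem
    rw [Finset.mem_union]
    exact Or.inl (Finset.mem_image.2 ⟨i, Finset.mem_univ i, rfl⟩)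
  · have h1 : x i • toR (Pi.single i 1 : Fin n → ℤ) =
        (-(x i)) • toR (-Pi.single i 1 : Fin n → ℤ) := by
      funext j
      simp only [toR, Pi.smul_apply, Pi.neg_apply, smul_eq_mul]
      push_cast
      ring
    rw [h1]
    apply gen_smul (by linarith)
    apply gen_mem
    rw [Finset.mem_union]
    exact Or.inr (Finset.mem_image.2 ⟨i, Finset.mem_univ i, rfl⟩)

theorem gen_step {n : ℕ} (S S' : Finset (Fin n → ℤ)) (l : Fin n → ℤ)
    (h1 : ∀ s ∈ S, 0 ≤ dt l (toR s) → gen S' (toR s))
    (h2 : ∀ s ∈ S, ∀ t ∈ S, 0 < dt l (toR s) → dt l (toR t) < 0 →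
      gen S' ((dt l (toR s)) • toR t + (-(dt l (toR t))) • toR s))
    (x : V n) (hx : gen S x) (hl : 0 ≤ dt l x) : gen S' x := by
  classical
  obtain ⟨c, hc, rfl⟩ := hx
  set P := S.filter (fun s => 0 < dt l (toR s)) with hP
  set N := S.filter (fun s => dt l (toR s) < 0) with hN
  set Z := S.filter (fun s => dt l (toR s) = 0) with hZ
  have hsplit : ∀ f : (Fin n → ℤ) → V n, ∑ s ∈ S, f s = ∑ s ∈ Z, f s + ∑ s ∈ P, f s + ∑ s ∈ N, f s := by
    intro f
    rw [hZ, hP, hN, Finset.sum_filter, Finset.sum_filter, Finset.sum_filter,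
      ← Finset.sum_add_distrib, ← Finset.sum_add_distrib]
    refine Finset.sum_congr rfl fun s _ => ?_
    rcases lt_trichotomy (dt l (toR s)) 0 with h | h | h
    · rw [if_neg h.ne, if_neg (not_lt.2 h.le), if_pos h]
      simp
    · rw [if_pos h, if_neg (by rw [h]; exact lt_irrefl 0), if_neg (by rw [h]; exact lt_irrefl 0)]
      simp
    · rw [if_neg h.ne', if_pos h, if_neg (not_lt.2 h.le)]
      simp
  have hZg : gen S' (∑ s ∈ Z, c s • toR s) := by
    apply gen_sum
    intro s hs
    rw [hZ, Finset.mem_filter] at hs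
    exact gen_smul (hc s) (h1 s hs.1 hs.2.ge)
  have hPg : gen S' (∑ s ∈ P, c s • toR s) := by
    apply gen_sum
    intro s hs
    rw [hP, Finset.mem_filter] at hs
    exact gen_smul (hc s) (h1 s hs.1 hs.2.le)
  set A := ∑ s ∈ P, c s * dt l (toR s) with hA
  set B := ∑ t ∈ N, c t * (-(dt l (toR t))) with hB
  have hB0 : ∀ t ∈ N, 0 ≤ c t * (-(dt l (toR t))) := by
    intro t ht
    rw [hN, Finset.mem_filter] at ht
    exact mul_nonneg (hc t) (by linarith [ht.2])
  have hAB : B ≤ A := by
    rw [hsplit, dt_add, dt_add, dt_sum, dt_sum, dt_sum] at hl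
    have h3 : ∑ s ∈ Z, dt l (c s • toR s) = 0 := by
      apply Finset.sum_eq_zero
      intro s hs
      rw [hZ, Finset.mem_filter] at hs
      rw [dt_smul, hs.2, mul_zero]
    have h4 : ∑ s ∈ P, dt l (c s • toR s) = A :=
      Finset.sum_congr rfl fun s _ => dt_smul l (c s) _
    have h5 : ∑ s ∈ N, dt l (c s • toR s) = -B := by
      rw [hB, ← Finset.sum_neg_distrib]
      exact Finset.sum_congr rfl fun s _ => by rw [dt_smul]; ring
    rw [h3, h4, h5] at hl
    linarith
  rw [hsplit]
  rcases (Finset.sum_nonneg hB0).eq_or_lt with h0 | h0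
  · have h6 : ∑ s ∈ N, c s • toR s = 0 := by
      apply Finset.sum_eq_zero
      intro t ht
      have h7 := (Finset.sum_eq_zero_iff_of_nonneg hB0).1 h0.symm t ht
      rw [hN, Finset.mem_filter] at ht
      rcases mul_eq_zero.1 h7 with h8 | h8
      · rw [h8, zero_smul]
      · exact absurd h8 (by linarith [ht.2])
    rw [h6, add_zero]
    exact gen_add hZg hPg
  · have hApos : 0 < A := lt_of_lt_of_le h0 hAB
    have h9 : ∑ t ∈ N, c t • toR t = (-(B / A)) • (∑ s ∈ P, c s • toR s) +
        ∑ s ∈ P, ∑ t ∈ N, (c s * c t / A) •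
          ((dt l (toR s)) • toR t + (-(dt l (toR t))) • toR s) := by
      have h10 : ∑ s ∈ P, ∑ t ∈ N, (c s * c t / A) •
          ((dt l (toR s)) • toR t + (-(dt l (toR t))) • toR s) =
          ∑ s ∈ P, ∑ t ∈ N, ((c s * dt l (toR s)) * (c t / A)) • toR t +
          ∑ s ∈ P, ∑ t ∈ N, ((c t * (-(dt l (toR t)))) * (c s / A)) • toR s := by
        rw [← Finset.sum_add_distrib]
        refine Finset.sum_congr rfl fun s _ => ?_
        rw [← Finset.sum_add_distrib]
        refine Finset.sum_congr rfl fun t _ => ?_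
        rw [smul_add, smul_smul, smul_smul]
        congr 2 <;> ring
      have h11 : ∑ s ∈ P, ∑ t ∈ N, ((c s * dt l (toR s)) * (c t / A)) • toR t =
          ∑ t ∈ N, c t • toR t := by
        rw [Finset.sum_comm]
        refine Finset.sum_congr rfl fun t _ => ?_
        rw [← Finset.sum_smul, ← Finset.sum_mul, ← hA]
        congr 1
        field_simp
      have h12 : ∑ s ∈ P, ∑ t ∈ N, ((c t * (-(dt l (toR t)))) * (c s / A)) • toR s =
          (B / A) • ∑ s ∈ P, c s • toR s := by
        rw [Finset.smul_sum]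
        refine Finset.sum_congr rfl fun s _ => ?_
        rw [← Finset.sum_smul, ← Finset.sum_mul, ← hB, smul_smul]
        congr 1
        ring
      rw [h10, h11, h12, neg_smul]
      abel
    have h13 : ∑ s ∈ Z, c s • toR s + ∑ s ∈ P, c s • toR s + ∑ s ∈ N, c s • toR s =
        ∑ s ∈ Z, c s • toR s + (1 - B / A) • (∑ s ∈ P, c s • toR s) +
        ∑ s ∈ P, ∑ t ∈ N, (c s * c t / A) •
          ((dt l (toR s)) • toR t + (-(dt l (toR t))) • toR s) := by
      rw [h9, sub_smul, one_smul, neg_smul]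
      abel
    rw [h13]
    apply gen_add (gen_add hZg (gen_smul _ hPg))
    · apply gen_sum
      intro s hs
      apply gen_sum
      intro t ht
      rw [hP, Finset.mem_filter] at hs
      rw [hN, Finset.mem_filter] at ht
      exact gen_smul (div_nonneg (mul_nonneg (hc s) (hc t)) hApos.le) (h2 s hs.1 t ht.1 hs.2 ht.2)
    · rw [sub_nonneg, div_le_one hApos]
      exact hAB

theorem hcone_ratPoly {n : ℕ} (T : Finset (Fin n → ℤ)) :
    RatPoly {x : V n | ∀ t ∈ T, 0 ≤ ∑ i, (t i : ℝ) * x i} := by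
  classical
  have key : ∃ S : Finset (Fin n → ℤ), ∀ x : V n, (∀ t ∈ T, 0 ≤ dt t x) ↔ gen S x := by
    induction T using Finset.induction_on with
    | empty => exact ⟨_, fun x => ⟨fun _ => gen_univ x, fun _ t ht => absurd ht (Finset.notMem_empty t)⟩⟩
    | insert l T hl ih =>
      obtain ⟨S, hS⟩ := ih
      let L : (Fin n → ℤ) → ℤ := fun s => ∑ i, l i * s i
      have hL : ∀ s, dt l (toR s) = (L s : ℝ) := fun s => dt_toR l s
      let S' : Finset (Fin n → ℤ) := S.filter (fun s => 0 ≤ L s) ∪
        ((S ×ˢ S).filter (fun p => 0 < L p.1 ∧ L p.2 < 0)).image (fun p => L p.1 • p.2 - L p.2 • p.1)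
      refine ⟨S', fun x => ⟨fun hx => ?_, fun hx => ?_⟩⟩
      · apply gen_step S S' l
        · intro s hs h0
          rw [hL] at h0
          apply gen_mem
          rw [Finset.mem_union]
          exact Or.inl (Finset.mem_filter.2 ⟨hs, by exact_mod_cast h0⟩)
        · intro s hs t ht hs0 ht0
          rw [hL] at hs0 ht0
          rw [hL, hL, ← toR_comb]
          apply gen_mem
          rw [Finset.mem_union]
          refine Or.inr (Finset.mem_image.2 ⟨(s, t), Finset.mem_filter.2
            ⟨Finset.mem_product.2 ⟨hs, ht⟩, ?_, ?_⟩, rfl⟩)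
          · exact_mod_cast hs0
          · exact_mod_cast ht0
        · exact (hS x).1 fun t ht => hx t (Finset.mem_insert_of_mem ht)
        · exact hx l (Finset.mem_insert_self _ _)
      · have hgen : ∀ s ∈ S', ∀ t ∈ insert l T, 0 ≤ dt t (toR s) := by
          intro s hs t ht
          rw [Finset.mem_union] at hs
          rcases hs with hs | hs
          · rw [Finset.mem_filter] at hs
            rcases Finset.mem_insert.1 ht with rfl | ht
            · rw [hL]
              exact_mod_cast hs.2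
            · exact (hS (toR s)).2 (gen_mem hs.1) t ht
          · obtain ⟨p, hp, rfl⟩ := Finset.mem_image.1 hs
            rw [Finset.mem_filter, Finset.mem_product] at hp
            obtain ⟨⟨hp1, hp2⟩, hp3, hp4⟩ := hp
            have hp3' : (0 : ℝ) < (L p.1 : ℝ) := by exact_mod_cast hp3
            have hp4' : (L p.2 : ℝ) < 0 := by exact_mod_cast hp4
            rw [toR_comb, dt_add, dt_smul, dt_smul]
            rcases Finset.mem_insert.1 ht with rfl | ht
            · rw [hL, hL]
              have : (L p.1 : ℝ) * (L p.2 : ℝ) + -(L p.2 : ℝ) * (L p.1 : ℝ) = 0 := by ring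
              rw [this]
            · have h3 := (hS (toR p.1)).2 (gen_mem hp1) t ht
              have h4 := (hS (toR p.2)).2 (gen_mem hp2) t ht
              exact add_nonneg (mul_nonneg hp3'.le h4) (mul_nonneg (by linarith) h3)
        intro t ht
        obtain ⟨c, hc, rfl⟩ := hx
        rw [dt_sum]
        refine Finset.sum_nonneg fun s hs => ?_
        rw [dt_smul]
        exact mul_nonneg (hc s) (hgen s hs t ht)
  obtain ⟨S, hS⟩ := key
  exact ⟨S, Set.ext fun x => hS x⟩

end Pool.Agent.H57.KM
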