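import Mathlib

/-!
# The cone conjecture for varieties with many automorphisms (MP_e49dc9_ag): definitions and plan

`V n = ℝ^n` is `N^1(Y)` with the lattice `ℤ^n`; `NefData n` collects the ample cone, the effective cone and the
image of `Aut(Y)` in `GL_n(ℤ)`, with their standard properties.

THEOREM.  If the image of `Aut(Y)` contains a free abelian group of rank `n - 1` (`n` the Picard number), then
Q1 holds for `Y` (with the effective nef cone), every nonzero rational nef class is ample, and the rational ample
classes are the totally positive elements of a totally real number field of degree `n`, on which the free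
abelian group acts by units.

PLAN.  Let `f : ℤ^r → GL_(r+1)(ℤ)` be injective with image in `G`, `x` a rational ample class.
(1) `Proper`: `{g ∈ G : g Q meets a bounded set}` is finite for compact `Q` in the ample cone (from `Norm`).
(2) `E` = the commutative algebra generated by the image of `f` over `ℚ`, `N = {e : e x = 0}`, `K = E / N`: `Struct`.
`finrank K ≤ r + 1`, `ℤ^r → Kˣ` is injective (stabilizers of ample classes are finite), the values are integral,
and no `1 + z` with `z^2 = 0`, `z ≠ 0` is a value (`x + k z x` would be ample for all integers `k`).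
(3) `AlgField`: such a `K` is a totally real number field of degree `r + 1` (Dirichlet's unit theorem bounds the
rank: `RedRank`, `RedDim`, `Unip`).
(4) `Coord`, `Cover`, `Orth`: in the real coordinates given by the embeddings of `K` the ample cone is the
positive orthant.
(5) `Coco`: the action is cocompact; `Dom` (from `DualPt`, `Dirichlet`, `MW`): an exact rational polyhedral
fundamental domain.
-/

set_option autoImplicit false

namespace Pool.Agent.H57.KM

/-- the real vector space `N^1(Y)`, with the lattice of the integral vectors -/
abbrev V (n : ℕ) := Fin n → ℝ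

/-- an integral vector as a real vector -/
def toR {n : ℕ} (s : Fin n → ℤ) : V n := fun i => (s i : ℝ)

/-- a rational vector as a real vector -/
def qR {n : ℕ} (q : Fin n → ℚ) : V n := fun i => (q i : ℝ)

/-- the action of an invertible integral matrix on real vectors -/
def act {n : ℕ} (g : GL (Fin n) ℤ) (x : V n) : V n :=
  ((g : Matrix (Fin n) (Fin n) ℤ).map (Int.cast : ℤ → ℝ)).mulVec x

/-- rational polyhedral cones: the set of the combinations with nonnegative real coefficients of finitely
many integral vectors -/
def RatPoly {n : ℕ} (P : Set (V n)) : Prop :=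
  ∃ S : Finset (Fin n → ℤ),
    P = {x | ∃ c : (Fin n → ℤ) → ℝ, (∀ s, 0 ≤ c s) ∧ x = ∑ s ∈ S, c s • toR s}

/-- open convex cones with pointed closure -/
structure IsAmp {n : ℕ} (C : Set (V n)) : Prop where
  ne : C.Nonempty
  op : IsOpen C
  add : ∀ x ∈ C, ∀ y ∈ C, x + y ∈ C
  smul : ∀ c : ℝ, 0 < c → ∀ x ∈ C, c • x ∈ C
  pointed : ∀ x ∈ closure C, -x ∈ closure C → x = 0

/-- the ample cone, the effective cone and the image of the automorphism group -/
structure NefData (n : ℕ) where
  /-- the ample cone -/
  amp : Set (V n)
  /-- the cone of effective classes -/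
  eff : Set (V n)
  /-- the image of the automorphism group -/
  G : Subgroup (GL (Fin n) ℤ)
  isAmp : IsAmp amp
  eff_zero : (0 : V n) ∈ eff
  eff_add : ∀ x ∈ eff, ∀ y ∈ eff, x + y ∈ eff
  eff_smul : ∀ c : ℝ, 0 < c → ∀ x ∈ eff, c • x ∈ eff
  amp_eff : amp ⊆ eff
  nef_eff : closure amp ∩ eff ⊆ convexHull ℝ {x | x ∈ closure amp ∧ ∃ q : Fin n → ℚ, x = qR q}
  act_amp : ∀ g ∈ G, ∀ x ∈ amp, act g x ∈ amp
  act_eff : ∀ g ∈ G, ∀ x ∈ eff, act g x ∈ eff

/-- Q1 for the effective nef cone: a rational polyhedral cone `P` whose translates cover the effective nef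
cone, the interiors of `P` and of `g P` being disjoint unless `g = 1` -/
def NefData.Q1 {n : ℕ} (D : NefData n) : Prop :=
  ∃ P : Set (V n), RatPoly P ∧ closure D.amp ∩ D.eff = ⋃ g ∈ D.G, act g '' P ∧
    ∀ g ∈ D.G, g ≠ 1 → Disjoint (interior P) (act g '' interior P)

end Pool.Agent.H57.KM
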