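import Pool.Agent.H57.KM.RedRank

/-!
[H57 KM ALGFIELD]  A finite dimensional commutative `ℚ`-algebra of dimension at most `r + 1` with a free abelian group of
rank `r` of integral units without elements `1 + z`, `z ^ 2 = 0`, `z ≠ 0`, is a totally real number field of degree `r + 1`.

`red_rank` and `unip_rank`: `r + card + ν ≤ u + (r + 1)`, `u ≤ ν` and `u < ν` if the nilradical is not zero; `card ≥ 1`.  So `card = 1`, `u = ν`, the nilradical
is zero, `finrank = r + 1`, no non-real embedding.  A reduced Artinian ring with one maximal ideal is a field.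
-/

set_option autoImplicit false

namespace Pool.Agent.H57.KM

open Module

theorem alg_field {E : Type} [CommRing E] [Algebra ℚ E] [Module.Finite ℚ E] [Nontrivial E] {r : ℕ}
    (hd : finrank ℚ E ≤ r + 1) (α : Multiplicative (Fin r → ℤ) →* Eˣ) (hα : Function.Injective α)
    (hint : ∀ t, IsIntegral ℤ ((α t : Eˣ) : E))
    (hcond : ∀ t, ∀ z : E, z ^ 2 = 0 → ((α t : Eˣ) : E) = 1 + z → z = 0) :
    IsField E ∧ finrank ℚ E = r + 1 ∧ ∀ χ : E →+* ℂ, ∀ e : E, (χ e).im = 0 := by
  obtain ⟨h1, h2⟩ := red_rank α hint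
  obtain ⟨h3, h4⟩ := unip_rank α hα hcond
  have hart : IsArtinianRing E := IsArtinianRing.of_finite ℚ E
  have hfin : Finite (MaximalSpectrum E) := inferInstance
  have hne : Nonempty (MaximalSpectrum E) := by
    obtain ⟨m, hm⟩ := Ideal.exists_maximal E
    exact ⟨⟨m, hm⟩⟩
  have hcard : 1 ≤ Nat.card (MaximalSpectrum E) := Nat.one_le_iff_ne_zero.2 Nat.card_pos.ne'
  have hnil : nilradical E = ⊥ := by
    by_contra hne'
    have := h4 hne'
    omega
  have hcard1 : Nat.card (MaximalSpectrum E) = 1 := by omega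
  have hdeg : finrank ℚ E = r + 1 := by omega
  have hreal : ∀ χ : E →+* ℂ, ∀ e : E, (χ e).im = 0 := by
    intro χ e
    by_contra hne'
    have := h2 ⟨χ, e, hne'⟩
    omega
  refine ⟨?_, hdeg, hreal⟩
  have hred : IsReduced E := (nilradical_eq_bot_iff).1 hnil
  have hloc : IsLocalRing E := by
    refine IsLocalRing.of_unique_max_ideal ?_
    obtain ⟨m, hm⟩ := Ideal.exists_maximal E
    refine ⟨m, hm, fun J hJ => ?_⟩
    have hs : Subsingleton (MaximalSpectrum E) := (Nat.card_eq_one_iff_unique.1 hcard1).1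
    have := Subsingleton.elim (⟨J, hJ⟩ : MaximalSpectrum E) ⟨m, hm⟩
    exact congrArg MaximalSpectrum.asIdeal this
  exact IsArtinianRing.isField_of_isReduced_of_isLocalRing E

end Pool.Agent.H57.KM
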