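import Pool.Agent.H57.KM.Basic

/-!
[H57 KM COORD]  Real coordinates.

`K` totally real (all the embeddings into `ℂ` are real valued), `φ : K ≃ ℚ^n` linear, `b_i = φ⁻¹ e_i` a basis of `K`.  Define `X v σ = ∑ i, v i * σ (b_i)`, linear in `v`.
For `v = qR (φ k)`: `k = ∑ (φ k) i • b_i`, so `X v σ = σ k` (`σ` is `ℚ`-linear).
The number of the `σ : K →+* ℝ` is `n`: composition with `ℝ → ℂ` is a bijection onto `K →+* ℂ` (totally real), which has `finrank ℚ K = n` elements
(`NumberField.Embeddings.card`).  Bijectivity: both sides have dimension `n`; if `X` were not surjective there would be a nonzero functional `c` on `ℝ^σ` with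
`∑ σ, c σ * X v σ = 0` for all `v`, so `∑ σ, c σ * σ k = 0` for all `k ∈ K`: contradiction to the linear independence of the distinct monoid homomorphisms `K → ℝ`
(`linearIndependent_monoidHom`).
`card_emb`: see above.
-/

set_option autoImplicit false

namespace Pool.Agent.H57.KM

open Module

/-- real and complex embeddings of a totally real field -/
noncomputable def embEquiv {K : Type} [Field K] (hreal : ∀ χ : K →+* ℂ, ∀ k, (χ k).im = 0) :
    (K →+* ℝ) ≃ (K →+* ℂ) where
  toFun σ := (Complex.ofRealHom).comp σ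
  invFun χ :=
    { toFun := fun k => (χ k).re
      map_one' := by simp
      map_zero' := by simp
      map_add' := fun a b => by simp
      map_mul' := fun a b => by simp [Complex.mul_re, hreal] }
  left_inv σ := by
    ext k
    simp
  right_inv χ := by
    ext k
    apply Complex.ext
    · simp
    · simp [hreal]

theorem card_emb {K : Type} [Field K] [NumberField K] (hreal : ∀ χ : K →+* ℂ, ∀ k, (χ k).im = 0) :
    Nat.card (K →+* ℝ) = finrank ℚ K := by
  rw [Nat.card_congr (embEquiv hreal), Nat.card_eq_fintype_card]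
  exact NumberField.Embeddings.card K ℂ

theorem coord {n : ℕ} {K : Type} [Field K] [NumberField K] (hreal : ∀ χ : K →+* ℂ, ∀ k, (χ k).im = 0)
    (φ : K ≃ₗ[ℚ] (Fin n → ℚ)) :
    ∃ X : V n ≃ₗ[ℝ] ((K →+* ℝ) → ℝ), ∀ k σ, X (qR (φ k)) σ = σ k := by
  classical
  haveI : Finite (K →+* ℝ) := Finite.of_equiv _ (embEquiv hreal).symm
  haveI : Fintype (K →+* ℝ) := Fintype.ofFinite _
  set bb : Fin n → K := fun i => φ.symm (Pi.single i 1) with hbb
  let X : V n →ₗ[ℝ] ((K →+* ℝ) → ℝ) :=
    { toFun := fun v σ => ∑ i, v i * σ (bb i)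
      map_add' := by
        intro v w
        funext σ
        simp [add_mul, Finset.sum_add_distrib]
      map_smul' := by
        intro c v
        funext σ
        simp [mul_assoc, Finset.mul_sum] }
  have hX : ∀ k σ, X (qR (φ k)) σ = σ k := by
    intro k σ
    have h1 : X (qR (φ k)) σ = ∑ i, ((φ k i : ℚ) : ℝ) * σ (bb i) := rfl
    have h2 : ∀ i, ((φ k i : ℚ) : ℝ) * σ (bb i) = σ ((φ k i) • bb i) := by
      intro i
      rw [Algebra.smul_def, map_mul]
      congr 1
      simp
    have h3 : ∑ i, (φ k i) • bb i = k := by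
      rw [hbb]
      simp only [← map_smul]
      rw [← map_sum]
      have h4 : ∑ i, (φ k i) • (Pi.single i (1 : ℚ) : Fin n → ℚ) = φ k := by
        funext j
        simp [Finset.sum_apply, Pi.single_apply]
      rw [h4]
      exact φ.symm_apply_apply k
    rw [h1, Finset.sum_congr rfl (fun i _ => h2 i), ← map_sum, h3]
  have hfin : finrank ℝ (V n) = finrank ℝ ((K →+* ℝ) → ℝ) := by
    rw [Module.finrank_fintype_fun_eq_card, Module.finrank_fintype_fun_eq_card, Fintype.card_fin]
    have h1 := card_emb hreal
    rw [Nat.card_eq_fintype_card] at h1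
    rw [h1, φ.finrank_eq]
    simp
  have hsurj : Function.Surjective X := by
    rw [← LinearMap.range_eq_top]
    by_contra hne
    obtain ⟨f, hf0, hf⟩ := Submodule.exists_le_ker_of_lt_top _ (lt_top_iff_ne_top.2 hne)
    have hfX : ∀ v, f (X v) = 0 := fun v => hf (LinearMap.mem_range_self X v)
    have hinj : Function.Injective (fun σ : K →+* ℝ => (σ : K →* ℝ)) := by
      intro σ τ h
      ext k
      exact DFunLike.congr_fun h k
    have hli : LinearIndependent ℝ (fun σ : K →+* ℝ => ((σ : K →* ℝ) : K → ℝ)) :=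
      (linearIndependent_monoidHom K ℝ).comp _ hinj
    rw [Fintype.linearIndependent_iff] at hli
    have hc : ∀ σ, f (Pi.single σ 1) = 0 := by
      apply hli (fun σ => f (Pi.single σ 1))
      funext k
      have h1 := hfX (qR (φ k))
      have h2 : X (qR (φ k)) = ∑ σ, (σ k) • (Pi.single σ (1 : ℝ) : (K →+* ℝ) → ℝ) := by
        funext τ
        rw [hX]
        simp [Finset.sum_apply, Pi.single_apply]
      rw [h2, map_sum] at h1
      rw [Finset.sum_apply]
      simp only [Pi.smul_apply, smul_eq_mul, Pi.zero_apply]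
      rw [← h1]
      refine Finset.sum_congr rfl (fun σ _ => ?_)
      rw [map_smul, smul_eq_mul, mul_comm]
      rfl
    apply hf0
    apply LinearMap.ext
    intro g
    have h2 : g = ∑ σ, (g σ) • (Pi.single σ (1 : ℝ) : (K →+* ℝ) → ℝ) := by
      funext τ
      simp [Finset.sum_apply, Pi.single_apply]
    rw [h2, map_sum, LinearMap.zero_apply]
    refine Finset.sum_eq_zero (fun σ _ => ?_)
    rw [map_smul, hc, smul_zero]
  have hbij : Function.Bijective X :=
    ⟨(LinearMap.injective_iff_surjective_of_finrank_eq_finrank hfin).2 hsurj, hsurj⟩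
  exact ⟨LinearEquiv.ofBijective X hbij, fun k σ => hX k σ⟩

end Pool.Agent.H57.KM
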