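import Pool.Agent.H57.KM.DualPt

/-!
[H57 KM DIRA]  The Dirichlet domain: covering and compactness.

`ξ = xi (toR s)`, `dom C G s = {x ∈ C | ∀ g ∈ G, ξ x ≤ ξ (act g x)} ∪ {0}`.
`fin_sub`: `c ‖act g x‖ ≤ ξ (act g x) ≤ R` (as `act g x ∈ C ⊆ closure C`), so `proper` with `R / c`.
`dom_cover`: for `x ∈ C` the set `{g ∈ G | ξ (act g x) ≤ ξ x}` is finite (`fin_sub` with `Q = {x}`) and contains `1`; take `g₀` in it with
`ξ (act g₀ x)` minimal; then `act g₀ x ∈ dom`: `act g (act g₀ x) = act (g * g₀) x`.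
`dom_compact`: `R₀` = a bound of `ξ` on `Q` (`ξ` is continuous), `F₀ = {g ∈ G | ∃ q ∈ Q, ξ (act g q) ≤ R₀}` finite, `Q₁ = ⋃ g ∈ F₀, act g '' Q` compact,
contained in `C`.  If `x ∈ dom`, `x ≠ 0`: `x ∈ C`, `x = t • act g q`, `ξ x ≤ ξ (act g⁻¹ x) = t ξ q ≤ t R₀`, and `ξ x = t ξ (act g q)`, so
`ξ (act g q) ≤ R₀`, `g ∈ F₀`.
-/

set_option autoImplicit false

namespace Pool.Agent.H57.KM

variable {n : ℕ} {C : Set (V n)}

/-- the Dirichlet domain -/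
def dom (C : Set (V n)) (G : Subgroup (GL (Fin n) ℤ)) (s : Fin n → ℤ) : Set (V n) :=
  {x | x ∈ C ∧ ∀ g ∈ G, xi (toR s) x ≤ xi (toR s) (act g x)} ∪ {0}

theorem xi_cont (η : V n) : Continuous (xi η) := by
  unfold xi
  exact continuous_finset_sum _ (fun i _ => continuous_const.mul (continuous_apply i))

theorem xi_add (η x y : V n) : xi η (x + y) = xi η x + xi η y := by
  unfold xi
  rw [← Finset.sum_add_distrib]
  refine Finset.sum_congr rfl (fun i _ => ?_)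
  rw [Pi.add_apply, mul_add]

theorem xi_smul (η : V n) (t : ℝ) (x : V n) : xi η (t • x) = t * xi η x := by
  unfold xi
  rw [Finset.mul_sum]
  refine Finset.sum_congr rfl (fun i _ => ?_)
  rw [Pi.smul_apply, smul_eq_mul]
  ring

theorem fin_sub (h : IsAmp C) (G : Subgroup (GL (Fin n) ℤ)) (hG : ∀ g ∈ G, ∀ x ∈ C, act g x ∈ C)
    {s : Fin n → ℤ} {c : ℝ} (hc : 0 < c) (hs : ∀ x ∈ closure C, c * ‖x‖ ≤ xi (toR s) x)
    {Q : Set (V n)} (hQ : IsCompact Q) (hQC : Q ⊆ C) (R : ℝ) :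
    {g : GL (Fin n) ℤ | g ∈ G ∧ ∃ x ∈ Q, xi (toR s) (act g x) ≤ R}.Finite := by
  refine (proper h G hG hQ hQC (R / c)).subset ?_
  rintro g ⟨hg, x, hx, hR⟩
  refine ⟨hg, x, hx, ?_⟩
  rw [le_div_iff₀ hc, mul_comm]
  exact (hs _ (subset_closure (hG g hg x (hQC hx)))).trans hR

theorem dom_cover (h : IsAmp C) (G : Subgroup (GL (Fin n) ℤ)) (hG : ∀ g ∈ G, ∀ x ∈ C, act g x ∈ C)
    {s : Fin n → ℤ} {c : ℝ} (hc : 0 < c) (hs : ∀ x ∈ closure C, c * ‖x‖ ≤ xi (toR s) x) :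
    ∀ x ∈ C, ∃ g ∈ G, act g x ∈ dom C G s := by
  intro x hx
  have hfin := fin_sub h G hG hc hs (isCompact_singleton (x := x)) (by
    intro y hy
    rw [Set.mem_singleton_iff] at hy
    rw [hy]
    exact hx) (xi (toR s) x)
  have hne : {g : GL (Fin n) ℤ | g ∈ G ∧ ∃ y ∈ ({x} : Set (V n)),
      xi (toR s) (act g y) ≤ xi (toR s) x}.Nonempty := by
    refine ⟨1, G.one_mem, x, Set.mem_singleton _, ?_⟩
    rw [act_one]
  obtain ⟨g₀, ⟨hg₀, y, hy, hle⟩, hmin⟩ := Set.exists_min_image _ (fun g => xi (toR s) (act g x)) hfin hne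
  rw [Set.mem_singleton_iff] at hy
  rw [hy] at hle
  refine ⟨g₀, hg₀, Or.inl ⟨hG _ hg₀ x hx, fun g hg => ?_⟩⟩
  rw [← act_mul]
  by_cases hgx : xi (toR s) (act (g * g₀) x) ≤ xi (toR s) x
  · exact hmin _ ⟨G.mul_mem hg hg₀, x, Set.mem_singleton _, hgx⟩
  · push Not at hgx
    exact hle.trans hgx.le

theorem dom_compact (h : IsAmp C) (G : Subgroup (GL (Fin n) ℤ)) (hG : ∀ g ∈ G, ∀ x ∈ C, act g x ∈ C)
    {s : Fin n → ℤ} {c : ℝ} (hc : 0 < c) (hs : ∀ x ∈ closure C, c * ‖x‖ ≤ xi (toR s) x)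
    {Q : Set (V n)} (hQ : IsCompact Q) (hQC : Q ⊆ C)
    (hcoco : ∀ x ∈ C, ∃ g ∈ G, ∃ t : ℝ, 0 < t ∧ ∃ q ∈ Q, x = t • act g q) :
    ∃ Q₁ : Set (V n), IsCompact Q₁ ∧ Q₁ ⊆ C ∧ ∀ x ∈ dom C G s, x ≠ 0 → ∃ t : ℝ, 0 < t ∧ ∃ q ∈ Q₁, x = t • q := by
  obtain ⟨R₀, hR₀⟩ := (hQ.image (xi_cont (toR s))).bddAbove
  have hR : ∀ q ∈ Q, xi (toR s) q ≤ R₀ := fun q hq => hR₀ ⟨q, hq, rfl⟩
  have hF := fin_sub h G hG hc hs hQ hQC R₀
  refine ⟨⋃ g ∈ {g : GL (Fin n) ℤ | g ∈ G ∧ ∃ x ∈ Q, xi (toR s) (act g x) ≤ R₀}, act g '' Q, ?_, ?_, ?_⟩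
  · exact hF.isCompact_biUnion (fun g _ => hQ.image (act_cont g))
  · intro y hy
    rw [Set.mem_iUnion₂] at hy
    obtain ⟨g, hg, q, hq, rfl⟩ := hy
    exact hG g hg.1 q (hQC hq)
  · rintro x (hx | hx) hx0
    · obtain ⟨hxC, hmin⟩ := hx
      obtain ⟨g, hg, t, ht, q, hq, hxq⟩ := hcoco x hxC
      refine ⟨t, ht, act g q, ?_, hxq⟩
      rw [Set.mem_iUnion₂]
      refine ⟨g, ⟨hg, q, hq, ?_⟩, q, hq, rfl⟩
      have h1 := hmin g⁻¹ (G.inv_mem hg)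
      rw [hxq, act_smul, ← act_mul, inv_mul_cancel, act_one, xi_smul, xi_smul] at h1
      exact (le_of_mul_le_mul_left h1 ht).trans (hR q hq)
    · exact absurd hx hx0

end Pool.Agent.H57.KM
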