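import Pool.Agent.H57.KM.DirA

/-!
[H57 KM DIRB]  The Dirichlet domain is given by finitely many inequalities.

`ξ = xi (toR s)`, `P = dom C G s`, `Q₁` as in the hypothesis `hQ₁` (the conclusion of `dom_compact`).
`Q₂` a compact neighbourhood of `Q₁` in `C` (`exists_compact_between`), `R` a bound of `ξ` on `Q₂`, `F = {g ∈ G | ∃ x ∈ Q₂, ξ (act g x) ≤ R}` finite (`fin_sub`).
Claim: `P = P' := {x | 0 ≤ ξ x ∧ ∀ g ∈ F, ξ x ≤ ξ (act g x)}`.
`⊆`: clear (`0 ≤ ξ` on `C`; `ξ 0 = 0`, `act g 0 = 0`).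
(i) `y ∈ P'`, `y = t q₂`, `t > 0`, `q₂ ∈ Q₂` implies `y ∈ P`: for `g ∈ G`, `g ∉ F` we have `ξ (act g q₂) > R ≥ ξ q₂`.
(ii) `P` is closed: if `x_k ∈ P`, `x_k → x ≠ 0` then `x_k = t_k q_k` (for large `k`) with `q_k ∈ Q₁`; `ξ` is bounded below by a positive constant on `Q₁`
(compact, contained in `C`, `0 ∉ Q₁`: if `0 ∈ C` then by `pointed` the space is zero and everything is trivial: `x ≠ 0` is impossible; or use
`c ‖x‖ ≤ ξ x`); a subsequence of the `q_k` converges to `q ∈ Q₁`, `t_k = ξ x_k / ξ q_k → t = ξ x / ξ q > 0` (`ξ x > 0` since `x ∈ closure C`, `x ≠ 0`), so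
`x = t q ∈ C`, and the inequalities pass to the limit (continuity).
(iii) Let `x ∈ P'`, `x ∉ P` (so `x ≠ 0`); take `p ∈ P ∩ C` (from `dom_cover`: `C` is not empty; if `act g x = 0` for `x ∈ C` then `0 ∈ C`, the trivial case) with `p ≠ 0`,
`p_t = (1 - t) p + t x`, `t ∈ [0,1]`: `p_t ∈ P'` (`P'` is convex).  The set `Z = {t ∈ [0,1] | p_t ∈ P}` is closed, contains `0`, and is open in `[0,1)`: if
`p_t ∈ P`, `t < 1` then `ξ p_t ≥ (1-t) ξ p > 0`, so `p_t ≠ 0`, `p_t = u q₁`, `q₁ ∈ Q₁ ⊆ interior Q₂`, so for `t'` near `t` `u⁻¹ p_{t'} ∈ Q₂` and by (i)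
`p_{t'} ∈ P`.  With `t* = sSup Z ∈ Z`: `t* = 1`, so `x ∈ P`: contradiction.  (`IsClosed.Icc_subset_of_forall_exists_gt` is made for this.)
-/

set_option autoImplicit false

namespace Pool.Agent.H57.KM

variable {n : ℕ} {C : Set (V n)}

theorem dirb_act_zero (g : GL (Fin n) ℤ) : act g (0 : V n) = 0 := by
  have h1 := act_smul g 0 (0 : V n)
  rwa [zero_smul, zero_smul] at h1

theorem dirb_xi_zero (η : V n) : xi η 0 = 0 := by
  have h1 := xi_smul η 0 (0 : V n)
  rwa [zero_smul, zero_mul] at h1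

/-- if `0 ∈ C` then the space is trivial -/
theorem dirb_triv (h : IsAmp C) (h0 : (0 : V n) ∈ C) (v : V n) : v = 0 := by
  have hcont : Continuous fun ε : ℝ => ε • v := continuous_id.smul continuous_const
  have hcont2 : Continuous fun ε : ℝ => ε • (-v) := continuous_id.smul continuous_const
  have h1 : ∀ᶠ ε : ℝ in nhds 0, ε • v ∈ C :=
    hcont.continuousAt.eventually_mem (h.op.mem_nhds (by simpa using h0))
  have h2 : ∀ᶠ ε : ℝ in nhds 0, ε • (-v) ∈ C :=
    hcont2.continuousAt.eventually_mem (h.op.mem_nhds (by simpa using h0))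
  have h3 : ∀ᶠ ε : ℝ in nhdsWithin 0 (Set.Ioi 0), ε • v ∈ C ∧ ε • (-v) ∈ C ∧ 0 < ε :=
    ((h1.filter_mono nhdsWithin_le_nhds).and
      ((h2.filter_mono nhdsWithin_le_nhds).and self_mem_nhdsWithin))
  obtain ⟨ε, he1, he2, he⟩ := h3.exists
  rw [smul_neg] at he2
  have h4 := h.pointed _ (subset_closure he1) (subset_closure he2)
  exact (smul_eq_zero.1 h4).resolve_left he.ne'

theorem dirb_dom_sub {G : Subgroup (GL (Fin n) ℤ)} (h : IsAmp C) {s : Fin n → ℤ} {x : V n}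
    (hx : x ∈ dom C G s) : x ∈ closure C := by
  rcases hx with hx | hx
  · exact subset_closure hx.1
  · rw [Set.mem_singleton_iff] at hx
    rw [hx]
    exact h.zero_closure

theorem dirb_dom_le {G : Subgroup (GL (Fin n) ℤ)} {s : Fin n → ℤ} {x : V n}
    (hx : x ∈ dom C G s) {g : GL (Fin n) ℤ} (hg : g ∈ G) :
    xi (toR s) x ≤ xi (toR s) (act g x) := by
  rcases hx with hx | hx
  · exact hx.2 g hg
  · rw [Set.mem_singleton_iff] at hx
    rw [hx, dirb_act_zero]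

theorem dom_closed (h : IsAmp C) (G : Subgroup (GL (Fin n) ℤ)) (hG : ∀ g ∈ G, ∀ x ∈ C, act g x ∈ C)
    {s : Fin n → ℤ} {c : ℝ} (hc : 0 < c) (hs : ∀ x ∈ closure C, c * ‖x‖ ≤ xi (toR s) x)
    {Q₁ : Set (V n)} (hQ : IsCompact Q₁) (hQC : Q₁ ⊆ C)
    (hQ₁ : ∀ x ∈ dom C G s, x ≠ 0 → ∃ t : ℝ, 0 < t ∧ ∃ q ∈ Q₁, x = t • q) :
    IsClosed (dom C G s) := by
  refine IsSeqClosed.isClosed fun u x hu hux => ?_
  by_cases hx0 : x = 0
  · rw [hx0]
    exact Or.inr rfl
  have hxC : x ∈ closure C :=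
    isClosed_closure.mem_of_tendsto hux (Filter.Eventually.of_forall fun k => dirb_dom_sub h (hu k))
  have hne : ∀ᶠ k in Filter.atTop, u k ≠ 0 := hux.eventually_ne hx0
  obtain ⟨k₀, hk₀⟩ := Filter.eventually_atTop.1 hne
  have hq : ∀ k, ∃ t : ℝ, 0 < t ∧ ∃ q ∈ Q₁, u (k + k₀) = t • q := fun k =>
    hQ₁ _ (hu _) (hk₀ _ (Nat.le_add_left _ _))
  choose t ht q hqQ huq using hq
  have hu' : Filter.Tendsto (fun k => u (k + k₀)) Filter.atTop (nhds x) :=
    (Filter.tendsto_add_atTop_iff_nat k₀).2 hux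
  obtain ⟨q₀, hq₀, φ, hφ, hlim⟩ := hQ.tendsto_subseq hqQ
  have h0C : (0 : V n) ∉ C := fun h0 => hx0 (dirb_triv h h0 x)
  have hpos : ∀ y ∈ closure C, y ≠ 0 → 0 < xi (toR s) y := fun y hy hy0 =>
    lt_of_lt_of_le (mul_pos hc (norm_pos_iff.2 hy0)) (hs y hy)
  have hqne : ∀ y ∈ Q₁, y ≠ 0 := fun y hy h0 => h0C (h0 ▸ hQC hy)
  have hxiq : 0 < xi (toR s) q₀ := hpos _ (subset_closure (hQC hq₀)) (hqne _ hq₀)
  have hteq : ∀ k, t k = xi (toR s) (u (k + k₀)) / xi (toR s) (q k) := by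
    intro k
    have h1 : 0 < xi (toR s) (q k) := hpos _ (subset_closure (hQC (hqQ k))) (hqne _ (hqQ k))
    rw [eq_div_iff h1.ne', huq k, xi_smul]
  have htlim : Filter.Tendsto (fun k => t (φ k)) Filter.atTop
      (nhds (xi (toR s) x / xi (toR s) q₀)) := by
    have h1 : Filter.Tendsto (fun k => xi (toR s) (u (φ k + k₀))) Filter.atTop
        (nhds (xi (toR s) x)) :=
      ((xi_cont (toR s)).tendsto x).comp (hu'.comp hφ.tendsto_atTop)
    have h2 : Filter.Tendsto (fun k => xi (toR s) (q (φ k))) Filter.atTop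
        (nhds (xi (toR s) q₀)) := ((xi_cont (toR s)).tendsto q₀).comp hlim
    have h3 := h1.div h2 hxiq.ne'
    refine h3.congr fun k => ?_
    rw [hteq]
    rfl
  have hxlim : Filter.Tendsto (fun k => t (φ k) • q (φ k)) Filter.atTop
      (nhds ((xi (toR s) x / xi (toR s) q₀) • q₀)) := htlim.smul hlim
  have hxeq : x = (xi (toR s) x / xi (toR s) q₀) • q₀ := by
    refine tendsto_nhds_unique (hu'.comp hφ.tendsto_atTop) ?_
    refine hxlim.congr fun k => ?_
    exact (huq (φ k)).symm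
  left
  refine ⟨?_, fun g hg => ?_⟩
  · rw [hxeq]
    exact h.smul _ (div_pos (hpos _ hxC hx0) hxiq) _ (hQC hq₀)
  · refine le_of_tendsto_of_tendsto' (((xi_cont (toR s)).tendsto x).comp hux)
      ((((xi_cont (toR s)).comp (act_cont g)).tendsto x).comp hux) fun k => ?_
    exact dirb_dom_le (hu k) hg

theorem dom_eq (h : IsAmp C) (G : Subgroup (GL (Fin n) ℤ)) (hG : ∀ g ∈ G, ∀ x ∈ C, act g x ∈ C)
    {s : Fin n → ℤ} {c : ℝ} (hc : 0 < c) (hs : ∀ x ∈ closure C, c * ‖x‖ ≤ xi (toR s) x)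
    {Q₁ : Set (V n)} (hQ : IsCompact Q₁) (hQC : Q₁ ⊆ C)
    (hQ₁ : ∀ x ∈ dom C G s, x ≠ 0 → ∃ t : ℝ, 0 < t ∧ ∃ q ∈ Q₁, x = t • q) :
    ∃ F : Set (GL (Fin n) ℤ), F.Finite ∧ F ⊆ G ∧
      dom C G s = {x | 0 ≤ xi (toR s) x ∧ ∀ g ∈ F, xi (toR s) x ≤ xi (toR s) (act g x)} := by
  have hcl := dom_closed h G hG hc hs hQ hQC hQ₁
  by_cases h0C : (0 : V n) ∈ C
  · refine ⟨∅, Set.finite_empty, Set.empty_subset _, ?_⟩
    ext x
    have hx : x = 0 := dirb_triv h h0C x
    rw [hx]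
    refine ⟨fun _ => ⟨(dirb_xi_zero _).ge, fun g hg => absurd hg (Set.notMem_empty g)⟩,
      fun _ => Or.inr rfl⟩
  obtain ⟨Q₂, hQ₂, hQ12, hQ₂C⟩ := exists_compact_between hQ h.op hQC
  obtain ⟨R, hR⟩ := (hQ₂.image (xi_cont (toR s))).bddAbove
  have hRle : ∀ q ∈ Q₂, xi (toR s) q ≤ R := fun q hq => hR ⟨q, hq, rfl⟩
  have hF := fin_sub h G hG hc hs hQ₂ hQ₂C R
  set F : Set (GL (Fin n) ℤ) := {g | g ∈ G ∧ ∃ x ∈ Q₂, xi (toR s) (act g x) ≤ R} with hFdef
  have hpos : ∀ y ∈ closure C, y ≠ 0 → 0 < xi (toR s) y := fun y hy hy0 =>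
    lt_of_lt_of_le (mul_pos hc (norm_pos_iff.2 hy0)) (hs y hy)
  refine ⟨F, hF, fun g hg => hg.1, Set.Subset.antisymm ?_ ?_⟩
  · intro x hx
    refine ⟨?_, fun g hg => dirb_dom_le hx hg.1⟩
    by_cases hx0 : x = 0
    · rw [hx0, dirb_xi_zero]
    · exact (hpos x (dirb_dom_sub h hx) hx0).le
  · -- (i)
    have hi : ∀ (y : V n) (t : ℝ) (q : V n), 0 < t → q ∈ Q₂ → y = t • q →
        (∀ g ∈ F, xi (toR s) y ≤ xi (toR s) (act g y)) → y ∈ dom C G s := by
      intro y t q ht hq hy hle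
      left
      refine ⟨?_, fun g hg => ?_⟩
      · rw [hy]
        exact h.smul t ht q (hQ₂C hq)
      · by_cases hgF : g ∈ F
        · exact hle g hgF
        · have h1 : R < xi (toR s) (act g q) := by
            by_contra hcon
            exact hgF ⟨hg, q, hq, not_lt.1 hcon⟩
          rw [hy, act_smul, xi_smul, xi_smul]
          exact mul_le_mul_of_nonneg_left ((hRle q hq).trans h1.le) ht.le
    rintro x ⟨hx0', hxF⟩
    -- a point of the domain
    obtain ⟨x₀, hx₀⟩ := h.ne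
    obtain ⟨g₀, hg₀, hp⟩ := dom_cover h G hG hc hs x₀ hx₀
    set p : V n := act g₀ x₀ with hpdef
    have hpC : p ∈ C := hG g₀ hg₀ x₀ hx₀
    have hp0 : p ≠ 0 := fun h0 => h0C (h0 ▸ hpC)
    have hxip : 0 < xi (toR s) p := hpos p (subset_closure hpC) hp0
    set γ : ℝ → V n := fun t => (1 - t) • p + t • x with hγ
    have hγc : Continuous γ := by
      have h1 : Continuous fun t : ℝ => (1 - t) • p :=
        (continuous_const.sub continuous_id).smul continuous_const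
      have h2 : Continuous fun t : ℝ => t • x := continuous_id.smul continuous_const
      exact h1.add h2
    have hsub : Set.Icc (0 : ℝ) 1 ⊆ γ ⁻¹' (dom C G s) := by
      refine IsClosed.Icc_subset_of_forall_exists_gt ?_ ?_ ?_
      · exact (hcl.preimage hγc).inter isClosed_Icc
      · show γ 0 ∈ dom C G s
        have : γ 0 = p := by simp [hγ]
        rw [this]
        exact hp
      · rintro t ⟨htd, ht0, ht1⟩ y hy
        have htd' : γ t ∈ dom C G s := htd
        have hxi : 0 < xi (toR s) (γ t) := by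
          simp only [hγ]
          rw [xi_add, xi_smul, xi_smul]
          have h1 : 0 < (1 - t) * xi (toR s) p := mul_pos (by linarith) hxip
          have h2 : 0 ≤ t * xi (toR s) x := mul_nonneg ht0 hx0'
          linarith
        have hne : γ t ≠ 0 := by
          intro h0
          rw [h0, dirb_xi_zero] at hxi
          exact lt_irrefl _ hxi
        obtain ⟨u, hu, q₁, hq₁, hγq⟩ := hQ₁ _ htd' hne
        have hcont : Continuous fun t' : ℝ => u⁻¹ • γ t' := hγc.const_smul u⁻¹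
        have hmem : u⁻¹ • γ t ∈ interior Q₂ := by
          rw [hγq, smul_smul, inv_mul_cancel₀ hu.ne', one_smul]
          exact hQ12 hq₁
        have h1 : ∀ᶠ t' in nhds t, u⁻¹ • γ t' ∈ interior Q₂ :=
          hcont.continuousAt.eventually_mem (isOpen_interior.mem_nhds hmem)
        have hy' : t < y := hy
        have h2 : Set.Ioc t (min y 1) ∈ nhdsWithin t (Set.Ioi t) :=
          Ioc_mem_nhdsGT (lt_min hy' ht1)
        obtain ⟨t', ht'1, ht'2⟩ := ((h1.filter_mono nhdsWithin_le_nhds).and h2).exists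
        obtain ⟨ha, hb⟩ := ht'2
        have hb1 : t' ≤ y := hb.trans (min_le_left _ _)
        have hb2 : t' ≤ 1 := hb.trans (min_le_right _ _)
        refine ⟨t', ?_, ha, hb1⟩
        show γ t' ∈ dom C G s
        refine hi (γ t') u (u⁻¹ • γ t') hu (interior_subset ht'1) ?_ ?_
        · rw [smul_smul, mul_inv_cancel₀ hu.ne', one_smul]
        · intro g hg
          simp only [hγ]
          rw [act_add, act_smul, act_smul, xi_add, xi_add, xi_smul, xi_smul, xi_smul, xi_smul]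
          have h3 : xi (toR s) p ≤ xi (toR s) (act g p) := dirb_dom_le hp hg.1
          have h4 := hxF g hg
          have h5 : 0 ≤ 1 - t' := by linarith
          have h6 : 0 ≤ t' := by linarith
          exact add_le_add (mul_le_mul_of_nonneg_left h3 h5) (mul_le_mul_of_nonneg_left h4 h6)
    have h1 : γ 1 ∈ dom C G s := hsub ⟨zero_le_one, le_rfl⟩
    have h2 : γ 1 = x := by simp [hγ]
    rwa [h2] at h1

end Pool.Agent.H57.KM
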