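import Pool.Agent.H57.KM.DirB
import Pool.Agent.H57.KM.MW

/-!
[H57 KM DIRC]  A cocompact group has an exact rational polyhedral fundamental domain.

`s, c` from `dual_point`, `P = dom C G s`; `Q₁` from `dom_compact`, `F` from `dom_eq`.
(1) `RatPoly P`: `ξ (act g x) - ξ x = ∑ i, (t_g i) x i` with the integral vector `t_g i = ∑ j, s j g j i - s i` (the transpose of `g` applied to `s`, minus `s`), so `P` is given by the
finite set of integral functionals `{s} ∪ {t_g | g ∈ F}`: `hcone_ratPoly`.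
(2) `C ∪ {0} = ⋃ g ∈ G, act g '' P`: `dom_cover` gives `act g x ∈ P`, `x = act g⁻¹ (act g x)`; conversely `P ⊆ C ∪ {0}` and `act g 0 = 0`.
(3) If `y ∈ interior P ∩ act g '' interior P`, `g ∈ G`: `y = act g y'`, `ξ y ≤ ξ (act g⁻¹ y) = ξ y' ≤ ξ (act g y') = ξ y` (elements of `P` are in `C` or zero; both cases are fine), so the
linear functional `x ↦ ξ (act g⁻¹ x) - ξ x` is `≥ 0` on `P` and vanishes at the interior point `y` of `P`: it vanishes identically (for every `v`, `y ± ε v ∈ P` for small `ε`), so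
`g⁻¹ = 1` by `dual_point`.
-/

set_option autoImplicit false

namespace Pool.Agent.H57.KM

variable {n : ℕ} {C : Set (V n)}

/-- the integral functional `x ↦ ξ (act g x) - ξ x` -/
private def tg (s : Fin n → ℤ) (g : GL (Fin n) ℤ) : Fin n → ℤ :=
  fun i => ∑ j, s j * (g : Matrix (Fin n) (Fin n) ℤ) j i - s i

private theorem tg_eq (s : Fin n → ℤ) (g : GL (Fin n) ℤ) (x : V n) :
    ∑ i, (tg s g i : ℝ) * x i = xi (toR s) (act g x) - xi (toR s) x := by
  unfold tg xi act toR
  simp only [Matrix.mulVec, dotProduct, Matrix.map_apply]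
  rw [eq_sub_iff_add_eq, ← Finset.sum_add_distrib]
  have h1 : ∀ i, ((∑ j, s j * (g : Matrix (Fin n) (Fin n) ℤ) j i - s i : ℤ) : ℝ) * x i + (s i : ℝ) * x i =
      ∑ j, (s j : ℝ) * (((g : Matrix (Fin n) (Fin n) ℤ) j i : ℤ) : ℝ) * x i := by
    intro i
    push_cast
    rw [← Finset.sum_mul]
    ring
  rw [Finset.sum_congr rfl (fun i _ => h1 i), Finset.sum_comm]
  refine Finset.sum_congr rfl (fun j _ => ?_)
  rw [Finset.mul_sum]
  refine Finset.sum_congr rfl (fun i _ => ?_)
  ring

private theorem act_zero (g : GL (Fin n) ℤ) : act g (0 : V n) = 0 := by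
  unfold act
  rw [Matrix.mulVec_zero]

private theorem dom_le {G : Subgroup (GL (Fin n) ℤ)} {s : Fin n → ℤ} {x : V n} (hx : x ∈ dom C G s)
    {g : GL (Fin n) ℤ} (hg : g ∈ G) : xi (toR s) x ≤ xi (toR s) (act g x) := by
  rcases hx with hx | hx
  · exact hx.2 g hg
  · rw [Set.mem_singleton_iff] at hx
    rw [hx, act_zero]

theorem fund_dom (h : IsAmp C) (G : Subgroup (GL (Fin n) ℤ)) (hG : ∀ g ∈ G, ∀ x ∈ C, act g x ∈ C)
    {Q : Set (V n)} (hQ : IsCompact Q) (hQC : Q ⊆ C)
    (hcoco : ∀ x ∈ C, ∃ g ∈ G, ∃ t : ℝ, 0 < t ∧ ∃ q ∈ Q, x = t • act g q) :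
    ∃ P : Set (V n), RatPoly P ∧ C ∪ {0} = ⋃ g ∈ G, act g '' P ∧
      ∀ g ∈ G, g ≠ 1 → Disjoint (interior P) (act g '' interior P) := by
  classical
  obtain ⟨s, ⟨c, hc, hs⟩, hstab⟩ := dual_point h G hG
  obtain ⟨Q₁, hQ₁, hQ₁C, hQ₁d⟩ := dom_compact h G hG hc hs hQ hQC hcoco
  obtain ⟨F, hF, hFG, hdom⟩ := dom_eq h G hG hc hs hQ₁ hQ₁C hQ₁d
  refine ⟨dom C G s, ?_, ?_, ?_⟩
  · have h1 : dom C G s = {x : V n | ∀ t ∈ insert s (hF.toFinset.image (tg s)),
        0 ≤ ∑ i, (t i : ℝ) * x i} := by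
      rw [hdom]
      ext x
      simp only [Set.mem_ofPred_eq, Finset.mem_insert, Finset.mem_image, Set.Finite.mem_toFinset,
        forall_eq_or_imp, forall_exists_index, and_imp, forall_apply_eq_imp_iff₂]
      refine and_congr Iff.rfl (forall_congr' fun g => forall_congr' fun _ => ?_)
      rw [tg_eq, sub_nonneg]
    rw [h1]
    exact hcone_ratPoly _
  · apply Set.Subset.antisymm
    · rintro x (hx | hx)
      · obtain ⟨g, hg, hgx⟩ := dom_cover h G hG hc hs x hx
        rw [Set.mem_iUnion₂]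
        refine ⟨g⁻¹, G.inv_mem hg, act g x, hgx, ?_⟩
        rw [← act_mul, inv_mul_cancel, act_one]
      · rw [Set.mem_singleton_iff] at hx
        rw [hx, Set.mem_iUnion₂]
        exact ⟨1, G.one_mem, 0, Or.inr rfl, act_one 0⟩
    · intro y hy
      rw [Set.mem_iUnion₂] at hy
      obtain ⟨g, hg, x, hx, rfl⟩ := hy
      rcases hx with hx | hx
      · exact Or.inl (hG g hg x hx.1)
      · rw [Set.mem_singleton_iff] at hx
        right
        rw [hx, act_zero]
        rfl
  · intro g hg hg1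
    rw [Set.disjoint_left]
    rintro y hy ⟨y', hy', rfl⟩
    apply hg1
    have hginv := G.inv_mem hg
    have e0 : act g⁻¹ (act g y') = y' := by rw [← act_mul, inv_mul_cancel, act_one]
    have e1 : xi (toR s) (act g y') ≤ xi (toR s) (act g⁻¹ (act g y')) :=
      dom_le (interior_subset hy) hginv
    have e2 : xi (toR s) y' ≤ xi (toR s) (act g y') := dom_le (interior_subset hy') hg
    rw [e0] at e1
    have e3 : xi (toR s) (act g⁻¹ (act g y')) = xi (toR s) (act g y') := by
      rw [e0]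
      exact le_antisymm e2 e1
    have hall : ∀ v : V n, xi (toR s) (act g⁻¹ v) = xi (toR s) v := by
      intro v
      have hU : IsOpen {ε : ℝ | act g y' + ε • v ∈ interior (dom C G s)} :=
        isOpen_interior.preimage (continuous_const.add (continuous_id.smul continuous_const))
      have h0 : (0 : ℝ) ∈ {ε : ℝ | act g y' + ε • v ∈ interior (dom C G s)} := by
        change act g y' + (0 : ℝ) • v ∈ interior (dom C G s)
        rw [zero_smul, add_zero]
        exact hy
      obtain ⟨ε, hε, hball⟩ := Metric.isOpen_iff.1 hU 0 h0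
      have hm : ∀ δ : ℝ, |δ| < ε → 0 ≤ δ * (xi (toR s) (act g⁻¹ v) - xi (toR s) v) := by
        intro δ hδ
        have h1 : δ ∈ {ε : ℝ | act g y' + ε • v ∈ interior (dom C G s)} := by
          apply hball
          rw [mem_ball_zero_iff, Real.norm_eq_abs]
          exact hδ
        have h2 := dom_le (interior_subset h1) hginv
        rw [act_add, act_smul, xi_add, xi_add, xi_smul, xi_smul, e3] at h2
        linarith
      have h1 := hm (ε / 2) (by rw [abs_of_pos (by positivity)]; linarith)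
      have h2 := hm (-(ε / 2)) (by rw [abs_neg, abs_of_pos (by positivity)]; linarith)
      have h3 : 0 < ε / 2 := by positivity
      have h4 : 0 ≤ xi (toR s) (act g⁻¹ v) - xi (toR s) v := nonneg_of_mul_nonneg_right h1 h3
      have h5 : 0 ≤ -(xi (toR s) (act g⁻¹ v) - xi (toR s) v) := by
        have : -(ε / 2) * (xi (toR s) (act g⁻¹ v) - xi (toR s) v) =
            ε / 2 * -(xi (toR s) (act g⁻¹ v) - xi (toR s) v) := by ring
        rw [this] at h2
        exact nonneg_of_mul_nonneg_right h2 h3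
      linarith
    have h6 := hstab g⁻¹ hginv hall
    exact inv_eq_one.1 h6

end Pool.Agent.H57.KM
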