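import Pool.Agent.H57.KM.Norm

/-!
[H57 KM DUALPT]  A rational point in the interior of the dual cone with trivial stabilizer.

`xi η x = ∑ i, η i * x i`.  Let `Cs = {η | ∃ c > 0, ∀ x ∈ closure C, c ‖x‖ ≤ xi η x}`.
`dual_ne`: `Cs` is open and not empty: existence of one `η`: the set `B = {x ∈ closure C : ‖x‖ = 1}` is compact, `0` is not in its convex
hull (a convex combination `∑ t_i x_i = 0` of points of `closure C` gives `x_1 = -∑ ..`, so `x_1 = 0` by `pointed`), the convex hull of a compact set in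
finite dimension is compact (`IsCompact.convexHull`), so a functional separates `0` strictly from it (`geometric_hahn_banach_point_closed` or
`geometric_hahn_banach_compact_closed`), functionals on `Fin n → ℝ` are of the form `xi η` ; then `xi η ≥ c > 0` on `B`, scaling.
(If `B` is empty, i.e. `closure C = {0}`, anything works.)  Open: if `‖η' - η‖` is small, `|xi (η' - η) x| ≤ n ‖η' - η‖ ‖x‖`.
Stabilizers: if `η' ∈ ball η δ` (a ball on which `xi η' x ≥ c ‖x‖` on `closure C` uniformly, `c` half the constant of `η`) and `g ∈ G` with `xi η' (act g x) = xi η' x` for all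
`x`, then for the fixed point `x₀ ∈ C`: `c ‖act g x₀‖ ≤ xi η' (act g x₀) = xi η' x₀ ≤ n (‖η‖ + δ) ‖x₀‖`, so `g` is in a finite set `F` (`proper` with
`Q = {x₀}`).  For `g ∈ F`, `g ≠ 1` the set of the `η'` with `xi η' ∘ act g = xi η'` is a proper linear subspace of `ℝ^n` (by `act_inj`), closed with empty
interior; the union of finitely many closed sets with empty interior has empty interior, so the ball contains an open nonempty set
avoiding it, and a rational (after multiplication by the denominator integral) point: `exists_rat`.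
-/

set_option autoImplicit false

namespace Pool.Agent.H57.KM

variable {n : ℕ} {C : Set (V n)}

/-- the linear functional with coefficients `η` -/
def xi (η x : V n) : ℝ := ∑ i, η i * x i

theorem xi_add_left (η η' x : V n) : xi (η + η') x = xi η x + xi η' x := by
  unfold xi
  rw [← Finset.sum_add_distrib]
  exact Finset.sum_congr rfl fun i _ => by rw [Pi.add_apply]; ring

theorem xi_smul_left (a : ℝ) (η x : V n) : xi (a • η) x = a * xi η x := by
  unfold xi
  rw [Finset.mul_sum]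
  exact Finset.sum_congr rfl fun i _ => by rw [Pi.smul_apply, smul_eq_mul]; ring

theorem xi_cont_left (x : V n) : Continuous fun η : V n => xi η x := by
  unfold xi
  fun_prop

theorem xi_abs (η x : V n) : |xi η x| ≤ n * ‖η‖ * ‖x‖ := by
  unfold xi
  calc |∑ i, η i * x i| ≤ ∑ i, |η i * x i| := Finset.abs_sum_le_sum_abs _ _
    _ ≤ ∑ _i : Fin n, ‖η‖ * ‖x‖ := by
        refine Finset.sum_le_sum fun i _ => ?_
        rw [abs_mul]
        exact mul_le_mul (norm_le_pi_norm η i) (norm_le_pi_norm x i) (abs_nonneg _) (norm_nonneg _)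
    _ = n * ‖η‖ * ‖x‖ := by
        rw [Finset.sum_const, Finset.card_univ, Fintype.card_fin, nsmul_eq_mul]
        ring

theorem sep_cone (h : IsAmp C) (v : V n) (hv : v ∈ closure C) (hv0 : v ≠ 0) :
    ∃ f : V n →L[ℝ] ℝ, (∀ x ∈ closure C, 0 ≤ f x) ∧ 0 < f v := by
  have hnot : -v ∉ closure C := fun hneg => hv0 (h.pointed v hv hneg)
  obtain ⟨f, u, hf1, hf2⟩ := geometric_hahn_banach_point_closed h.convex.closure isClosed_closure hnot
  have hu : u < 0 := by
    have := hf2 0 h.zero_closure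
    rwa [map_zero] at this
  refine ⟨f, fun x hx => ?_, ?_⟩
  · by_contra hneg
    push Not at hneg
    have h1 := hf2 _ (h.closure_smul (u / f x) (div_nonneg_of_nonpos hu.le hneg.le) x hx)
    rw [map_smul, smul_eq_mul, div_mul_cancel₀ _ hneg.ne] at h1
    exact lt_irrefl _ h1
  · rw [map_neg] at hf1
    linarith

theorem dual_ne (h : IsAmp C) : ∃ η : V n, ∃ c : ℝ, 0 < c ∧ ∀ x ∈ closure C, c * ‖x‖ ≤ xi η x := by
  classical
  set B : Set (V n) := Metric.sphere 0 1 ∩ closure C with hB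
  have hcomp : IsCompact B := (isCompact_sphere 0 1).inter_right isClosed_closure
  obtain ⟨f, hf1, hf2⟩ : ∃ f : V n →L[ℝ] ℝ, (∀ x ∈ closure C, 0 ≤ f x) ∧
      ∀ x ∈ B ∩ closure C, 0 < f x := by
    refine hcomp.induction_on (p := fun S => ∃ f : V n →L[ℝ] ℝ, (∀ x ∈ closure C, 0 ≤ f x) ∧
      ∀ x ∈ S ∩ closure C, 0 < f x) ?_ ?_ ?_ ?_
    · exact ⟨0, fun x _ => le_rfl, fun x hx => absurd hx.1 (Set.notMem_empty x)⟩
    · rintro S T hST ⟨f, h1, h2⟩
      exact ⟨f, h1, fun x hx => h2 x ⟨hST hx.1, hx.2⟩⟩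
    · rintro S T ⟨f, h1, h2⟩ ⟨f', h3, h4⟩
      refine ⟨f + f', fun x hx => add_nonneg (h1 x hx) (h3 x hx), ?_⟩
      rintro x ⟨hx | hx, hxC⟩
      · exact add_pos_of_pos_of_nonneg (h2 x ⟨hx, hxC⟩) (h3 x hxC)
      · exact add_pos_of_nonneg_of_pos (h1 x hxC) (h4 x ⟨hx, hxC⟩)
    · rintro v ⟨hv1, hv2⟩
      have hv0 : v ≠ 0 := by
        rintro rfl
        rw [mem_sphere_zero_iff_norm, norm_zero] at hv1
        exact zero_ne_one hv1
      obtain ⟨f, h1, h2⟩ := sep_cone h v hv2 hv0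
      refine ⟨{x | 0 < f x}, ?_, f, h1, fun x hx => hx.1⟩
      apply mem_nhdsWithin_of_mem_nhds
      exact (isOpen_lt continuous_const f.continuous).mem_nhds h2
  have hc : ∃ c : ℝ, 0 < c ∧ ∀ x ∈ B, c ≤ f x := by
    rcases B.eq_empty_or_nonempty with hemp | hne
    · exact ⟨1, one_pos, fun x hx => by rw [hemp] at hx; exact absurd hx (Set.notMem_empty x)⟩
    · obtain ⟨p, hp, hmin⟩ := hcomp.exists_isMinOn hne f.continuous.continuousOn
      exact ⟨f p, hf2 p ⟨hp, hp.2⟩, fun x hx => hmin hx⟩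
  obtain ⟨c, hc0, hc⟩ := hc
  refine ⟨fun i => f (fun j => if i = j then 1 else 0), c, hc0, fun x hx => ?_⟩
  have hfx : xi (fun i => f (fun j => if i = j then 1 else 0)) x = f x := by
    have h1 := LinearMap.pi_apply_eq_sum_univ (f : V n →ₗ[ℝ] ℝ) x
    change f x = _ at h1
    rw [h1]
    unfold xi
    refine Finset.sum_congr rfl fun i _ => ?_
    rw [smul_eq_mul, mul_comm]
    rfl
  rw [hfx]
  by_cases hx0 : x = 0
  · rw [hx0, norm_zero, mul_zero, map_zero]
  · have hxp : 0 < ‖x‖ := norm_pos_iff.2 hx0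
    have h2 := hc (‖x‖⁻¹ • x) ⟨by
      rw [mem_sphere_zero_iff_norm, norm_smul, norm_inv, norm_norm, inv_mul_cancel₀ hxp.ne'],
      h.closure_smul _ (by positivity) x hx⟩
    rw [map_smul, smul_eq_mul, le_inv_mul_iff₀ hxp] at h2
    linarith

theorem dual_point (h : IsAmp C) (G : Subgroup (GL (Fin n) ℤ)) (hG : ∀ g ∈ G, ∀ x ∈ C, act g x ∈ C) :
    ∃ s : Fin n → ℤ, (∃ c : ℝ, 0 < c ∧ ∀ x ∈ closure C, c * ‖x‖ ≤ xi (toR s) x) ∧
      ∀ g ∈ G, (∀ x : V n, xi (toR s) (act g x) = xi (toR s) x) → g = 1 := by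
  classical
  obtain ⟨η, c, hc0, hc⟩ := dual_ne h
  obtain ⟨x₀, hx₀⟩ := h.ne
  obtain ⟨δ, hδ⟩ : ∃ δ : ℝ, δ = c / (2 * ((n : ℝ) + 1)) := ⟨_, rfl⟩
  have hδ0 : 0 < δ := by
    rw [hδ]
    positivity
  have hnδ : (n : ℝ) * δ ≤ c / 2 := by
    rw [hδ, mul_div_assoc', div_le_div_iff₀ (by positivity) (by norm_num)]
    nlinarith
  have hball : ∀ η' ∈ Metric.ball η δ, ∀ x ∈ closure C, c / 2 * ‖x‖ ≤ xi η' x := by
    intro η' hη' x hx
    have h1 : xi η' x = xi η x + xi (η' - η) x := by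
      rw [← xi_add_left]
      congr 1
      abel
    have h2 := xi_abs (η' - η) x
    have h3 : ‖η' - η‖ < δ := by
      rw [← dist_eq_norm]
      exact hη'
    have h4 : (n : ℝ) * ‖η' - η‖ * ‖x‖ ≤ c / 2 * ‖x‖ := by
      apply mul_le_mul_of_nonneg_right _ (norm_nonneg _)
      exact (mul_le_mul_of_nonneg_left h3.le (Nat.cast_nonneg n)).trans hnδ
    have h5 := hc x hx
    have h6 := (abs_le.1 h2).1
    linarith
  obtain ⟨R, hR⟩ : ∃ R : ℝ, R = 2 / c * (n * (‖η‖ + δ) * ‖x₀‖) := ⟨_, rfl⟩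
  have hF := proper h G hG (Q := {x₀}) isCompact_singleton (by
    rintro x rfl
    exact hx₀) R
  set F := {g : GL (Fin n) ℤ | g ∈ G ∧ ∃ x ∈ ({x₀} : Set (V n)), ‖act g x‖ ≤ R} with hFdef
  let Z : GL (Fin n) ℤ → Submodule ℝ (V n) := fun g =>
    { carrier := {η' | ∀ x : V n, xi η' (act g x) = xi η' x}
      zero_mem' := fun x => by simp [xi]
      add_mem' := fun {a b} ha hb x => by rw [xi_add_left, xi_add_left, ha x, hb x]
      smul_mem' := fun t a ha x => by rw [xi_smul_left, xi_smul_left, ha x] }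
  have hZmem : ∀ g η', η' ∈ Z g ↔ ∀ x : V n, xi η' (act g x) = xi η' x := fun g η' => Iff.rfl
  have hZclosed : ∀ g, IsClosed ((Z g : Submodule ℝ (V n)) : Set (V n)) := by
    intro g
    have h1 : ((Z g : Submodule ℝ (V n)) : Set (V n)) =
        ⋂ x : V n, {η' | xi η' (act g x) = xi η' x} := by
      ext η'
      rw [Set.mem_iInter]
      exact Iff.rfl
    rw [h1]
    exact isClosed_iInter fun x => isClosed_eq (xi_cont_left _) (xi_cont_left _)
  have hZdense : ∀ g, g ≠ 1 → Dense (((Z g : Submodule ℝ (V n)) : Set (V n))ᶜ) := by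
    intro g hg
    rw [← interior_eq_empty_iff_dense_compl]
    by_contra hne
    have h1 : Z g = ⊤ := Submodule.eq_top_of_nonempty_interior' _ (Set.nonempty_iff_ne_empty.2 hne)
    apply hg
    apply act_inj
    intro x
    rw [act_one]
    funext i
    have h2 : (Pi.single i 1 : V n) ∈ Z g := by
      rw [h1]
      exact Submodule.mem_top
    have h3 := (hZmem g _).1 h2 x
    simpa [xi, Pi.single_apply] using h3
  have hFd : (F \ {1}).Finite := hF.subset Set.sdiff_subset
  have hWopen : IsOpen (⋂ g ∈ F \ {1}, ((Z g : Submodule ℝ (V n)) : Set (V n))ᶜ) :=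
    hFd.isOpen_biInter fun g _ => (hZclosed g).isOpen_compl
  have hWdense : Dense (⋂ g ∈ F \ {1}, ((Z g : Submodule ℝ (V n)) : Set (V n))ᶜ) :=
    dense_biInter_of_isOpen (fun g _ => (hZclosed g).isOpen_compl) hFd.countable
      (fun g hg => hZdense g hg.2)
  have hUne : (Metric.ball η δ ∩ ⋂ g ∈ F \ {1}, ((Z g : Submodule ℝ (V n)) : Set (V n))ᶜ).Nonempty :=
    hWdense.inter_open_nonempty _ Metric.isOpen_ball ⟨η, Metric.mem_ball_self hδ0⟩
  obtain ⟨q, hq1, hq2⟩ := exists_rat (Metric.isOpen_ball.inter hWopen) hUne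
  obtain ⟨d, hd⟩ : ∃ d : ℕ, d = ∏ i, (q i).den := ⟨_, rfl⟩
  have hd0 : 0 < d := by
    rw [hd]
    exact Finset.prod_pos (fun i _ => (q i).den_pos)
  have h1 : ∀ i, ∃ z : ℤ, (z : ℚ) = (d : ℚ) * q i := by
    intro i
    obtain ⟨e, he⟩ : (q i).den ∣ d := by
      rw [hd]
      exact Finset.dvd_prod_of_mem _ (Finset.mem_univ i)
    refine ⟨e * (q i).num, ?_⟩
    rw [he]
    push_cast
    have h2 := Rat.mul_den_eq_num (q i)
    linear_combination (-(e : ℚ)) * h2
  choose z hz using h1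
  have hzR : toR z = (d : ℝ) • qR q := by
    funext i
    simp only [toR, qR, Pi.smul_apply, smul_eq_mul]
    have := hz i
    exact_mod_cast this
  have hdR : (0 : ℝ) < d := by exact_mod_cast hd0
  refine ⟨z, ⟨d * (c / 2), by positivity, fun x hx => ?_⟩, fun g hg hfix => ?_⟩
  · rw [hzR, xi_smul_left, mul_assoc]
    exact mul_le_mul_of_nonneg_left (hball _ hq1 x hx) hdR.le
  · have hfix' : ∀ x : V n, xi (qR q) (act g x) = xi (qR q) x := by
      intro x
      have h3 := hfix x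
      rw [hzR, xi_smul_left, xi_smul_left] at h3
      exact mul_left_cancel₀ hdR.ne' h3
    by_contra hg1
    have hgF : g ∈ F := by
      refine ⟨hg, x₀, rfl, ?_⟩
      have h4 := hball _ hq1 (act g x₀) (subset_closure (hG g hg x₀ hx₀))
      rw [hfix' x₀] at h4
      have h5 := (abs_le.1 (xi_abs (qR q) x₀)).2
      have h6 : ‖(qR q : V n)‖ ≤ ‖η‖ + δ := by
        have h7 : ‖(qR q : V n) - η‖ < δ := by
          rw [← dist_eq_norm]
          exact hq1
        calc ‖(qR q : V n)‖ = ‖((qR q : V n) - η) + η‖ := by rw [sub_add_cancel]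
          _ ≤ ‖(qR q : V n) - η‖ + ‖η‖ := norm_add_le _ _
          _ ≤ ‖η‖ + δ := by linarith
      have h8 : (n : ℝ) * ‖(qR q : V n)‖ * ‖x₀‖ ≤ n * (‖η‖ + δ) * ‖x₀‖ := by gcongr
      have h9 : c / 2 * ‖act g x₀‖ ≤ n * (‖η‖ + δ) * ‖x₀‖ := h4.trans (h5.trans h8)
      rw [hR]
      calc ‖act g x₀‖ = 2 / c * (c / 2 * ‖act g x₀‖) := by field_simp
        _ ≤ 2 / c * (n * (‖η‖ + δ) * ‖x₀‖) := mul_le_mul_of_nonneg_left h9 (by positivity)
    have h10 := Set.mem_iInter₂.1 hq2 g ⟨hgF, hg1⟩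
    exact h10 ((hZmem g _).2 hfix')

end Pool.Agent.H57.KM
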