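import Pool.Agent.H57.KM.Unip

/-!
[H57 KM FRANK]  Dirichlet's unit theorem bounds the rank of a group of units.

`K` a number field, `β : ℤ^r → Kˣ` with integral values (so the values and their inverses, `β (-t)`, are integral: units of `𝓞 K`).  For a submodule
`T` of `ℤ^r`: the composite `T → Additive (𝓞 K)ˣ → Additive ((𝓞 K)ˣ ⧸ torsion K)`; the target has finrank `NumberField.Units.rank K = card (InfinitePlace K) - 1`
(`NumberField.Units.finrank_modTorsion` or the basis `basisModTorsion`), so `finrank T ≤ finrank (kernel) + card (InfinitePlace K) - 1`.  The kernel is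
`{t ∈ T | β t ∈ torsion}`; with `N` the order of the torsion group, `N • kernel ⊆ T ⊓ {t | β t = 1}`, so the finrank of the kernel is at most that of
`T ⊓ {β t = 1}` (multiplication by `N` is injective on `ℤ^r`; or: the quotient is torsion).
`card (InfinitePlace K) = nrRealPlaces + nrComplexPlaces`, `nrRealPlaces + 2 nrComplexPlaces = finrank ℚ K`; a non-real embedding gives a complex place.
-/

set_option autoImplicit false

namespace Pool.Agent.H57.KM

open Module

open NumberField in
/-- the units given by `β` -/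
noncomputable def frankU {K : Type} [Field K] [NumberField K] {r : ℕ}
    (β : Multiplicative (Fin r → ℤ) →* Kˣ) (hint : ∀ t, IsIntegral ℤ ((β t : Kˣ) : K)) :
    Multiplicative (Fin r → ℤ) →* (𝓞 K)ˣ where
  toFun t :=
    { val := ⟨((β t : Kˣ) : K), hint t⟩
      inv := ⟨((β t⁻¹ : Kˣ) : K), hint t⁻¹⟩
      val_inv := by
        apply RingOfIntegers.ext
        change ((β t : Kˣ) : K) * ((β t⁻¹ : Kˣ) : K) = 1
        rw [map_inv, Units.mul_inv]
      inv_val := by
        apply RingOfIntegers.ext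
        change ((β t⁻¹ : Kˣ) : K) * ((β t : Kˣ) : K) = 1
        rw [map_inv, Units.inv_mul] }
  map_one' := by
    apply Units.ext
    apply RingOfIntegers.ext
    change ((β 1 : Kˣ) : K) = 1
    rw [map_one, Units.val_one]
  map_mul' := by
    intro a b
    apply Units.ext
    apply RingOfIntegers.ext
    change ((β (a * b) : Kˣ) : K) = ((β a : Kˣ) : K) * ((β b : Kˣ) : K)
    rw [map_mul, Units.val_mul]

open NumberField in
theorem frankU_eq_one {K : Type} [Field K] [NumberField K] {r : ℕ}
    (β : Multiplicative (Fin r → ℤ) →* Kˣ) (hint : ∀ t, IsIntegral ℤ ((β t : Kˣ) : K))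
    (t : Multiplicative (Fin r → ℤ)) : frankU β hint t = 1 ↔ ((β t : Kˣ) : K) = 1 := by
  constructor
  · intro h
    have h1 := congrArg (fun u : (𝓞 K)ˣ => ((u : 𝓞 K) : K)) h
    exact h1
  · intro h
    apply Units.ext
    apply RingOfIntegers.ext
    exact h

open NumberField in
/-- `sub β ⊥ = {t | β t = 1}` -/
theorem field_rank {K : Type} [Field K] [NumberField K] {r : ℕ} (β : Multiplicative (Fin r → ℤ) →* Kˣ)
    (hint : ∀ t, IsIntegral ℤ ((β t : Kˣ) : K)) (T : Submodule ℤ (Fin r → ℤ)) :
    finrank ℤ T + 1 ≤ finrank ℤ (T ⊓ sub β ⊥ : Submodule ℤ (Fin r → ℤ)) + finrank ℚ K ∧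
      ((∃ χ : K →+* ℂ, ∃ k, (χ k).im ≠ 0) →
        finrank ℤ T + 2 ≤ finrank ℤ (T ⊓ sub β ⊥ : Submodule ℤ (Fin r → ℤ)) + finrank ℚ K) := by
  classical
  let γ : (Fin r → ℤ) →+ Additive (𝓞 K)ˣ := MonoidHom.toAdditiveRight (frankU β hint)
  let φ : T →ₗ[ℤ] Additive (𝓞 K)ˣ := (γ.toIntLinearMap).comp T.subtype
  have hker : LinearMap.ker φ = (T ⊓ sub β ⊥ : Submodule ℤ (Fin r → ℤ)).comap T.subtype := by
    ext t
    rw [LinearMap.mem_ker, Submodule.mem_comap, Submodule.mem_inf]
    change frankU β hint (Multiplicative.ofAdd t.1) = 1 ↔ _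
    rw [frankU_eq_one]
    constructor
    · intro h
      refine ⟨t.2, ?_⟩
      rw [mem_sub, Submodule.mem_bot, Submodule.subtype_apply, h, sub_self]
    · intro h
      have h1 : (t : Fin r → ℤ) ∈ sub β ⊥ := h.2
      rw [mem_sub, Submodule.mem_bot, sub_eq_zero] at h1
      exact h1
  have hfk : finrank ℤ (LinearMap.ker φ) = finrank ℤ (T ⊓ sub β ⊥ : Submodule ℤ (Fin r → ℤ)) := by
    rw [hker]
    exact LinearEquiv.finrank_eq (Submodule.comapSubtypeEquivOfLe inf_le_left)
  have hqr : finrank ℤ (T ⧸ LinearMap.ker φ) = finrank ℤ (LinearMap.range φ) :=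
    LinearEquiv.finrank_eq φ.quotKerEquivRange
  have hrn : finrank ℤ (T ⧸ LinearMap.ker φ) + finrank ℤ (LinearMap.ker φ) = finrank ℤ T :=
    Submodule.finrank_quotient_add_finrank _
  have hle : finrank ℤ (LinearMap.range φ) ≤ finrank ℤ (Additive (𝓞 K)ˣ) :=
    Submodule.finrank_le _
  rw [NumberField.Units.finrank_eq, NumberField.Units.rank] at hle
  have hpos : 0 < Fintype.card (InfinitePlace K) := Fintype.card_pos
  have hcard := InfinitePlace.card_eq_nrRealPlaces_add_nrComplexPlaces K
  have hrank := InfinitePlace.card_add_two_mul_card_eq_rank K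
  refine ⟨by omega, ?_⟩
  rintro ⟨χ, k, hk⟩
  have hc : 0 < InfinitePlace.nrComplexPlaces K := by
    have h1 : ¬ ComplexEmbedding.IsReal χ := by
      intro h
      apply hk
      have h2 := congrArg (fun f : K →+* ℂ => f k) (ComplexEmbedding.isReal_iff.1 h)
      exact Complex.conj_eq_iff_im.1 h2
    have h2 : InfinitePlace.IsComplex (InfinitePlace.mk χ) := InfinitePlace.isComplex_mk_iff.2 h1
    exact Fintype.card_pos_iff.2 ⟨⟨InfinitePlace.mk χ, h2⟩⟩
  omega

end Pool.Agent.H57.KM
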