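import Pool.Agent.H57.KM.Basic

/-!
[H57 KM NORM]  Normality of pointed cones and properness.

`normal`: otherwise there are `u_k, z_k` with `u_k ± z_k ∈ closure C` and `‖z_k‖ > k ‖u_k‖`; after scaling
`‖z_k‖ = 1`, `u_k → 0`; a limit point `z` of the `z_k` (compact sphere) satisfies `±z ∈ closure C`, so `z = 0` by `pointed`, a
contradiction to `‖z‖ = 1`.  (`u = 0` is included: `±z ∈ closure C` gives `z = 0`.)
`unif`: for compact `Q ⊆ C` there is `ε > 0` with `x ± y ∈ C` for `x ∈ Q`, `‖y‖ ≤ ε` (`IsCompact.exists_cthickening_subset_open`).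
`proper`: let `g` with `act g x ∈ closedBall 0 R` for some `x ∈ Q`.  For `‖y‖ ≤ ε`: `act g x ± act g y = act g (x ± y) ∈ C`, so
`‖act g y‖ ≤ K R`.  With `y = ε e_j`: the entries of `g` are at most `K R / ε` in absolute value: finitely many integral
matrices (`Set.Finite.subset` of a finite box of matrices, and `GL → Matrix` is injective: `Units.ext`).
`act g x ∈ C` is not needed as a hypothesis since `G` preserves `C`.
-/

set_option autoImplicit false

namespace Pool.Agent.H57.KM

variable {n : ℕ} {C : Set (V n)}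

theorem normal (h : IsAmp C) : ∃ K : ℝ, 0 < K ∧ ∀ u z : V n, u + z ∈ closure C → u - z ∈ closure C →
    ‖z‖ ≤ K * ‖u‖ := by
  classical
  set S : Set (V n × V n) := (Metric.closedBall 0 1 ×ˢ Metric.sphere 0 1) ∩
    {p | p.1 + p.2 ∈ closure C ∧ p.1 - p.2 ∈ closure C} with hS
  have hcomp : IsCompact S := by
    refine ((isCompact_closedBall 0 1).prod (isCompact_sphere 0 1)).inter_right ?_
    have h1 : IsClosed {p : V n × V n | p.1 + p.2 ∈ closure C} :=
      isClosed_closure.preimage (continuous_fst.add continuous_snd)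
    have h2 : IsClosed {p : V n × V n | p.1 - p.2 ∈ closure C} :=
      isClosed_closure.preimage (continuous_fst.sub continuous_snd)
    exact h1.inter h2
  -- scaling of a bad pair
  have hscale : ∀ u z : V n, u + z ∈ closure C → u - z ∈ closure C → z ≠ 0 → ‖u‖ ≤ ‖z‖ →
      (‖z‖⁻¹ • u, ‖z‖⁻¹ • z) ∈ S := by
    intro u z h1 h2 hz huz
    have hzp : 0 < ‖z‖ := norm_pos_iff.2 hz
    refine ⟨⟨?_, ?_⟩, ?_, ?_⟩
    · rw [mem_closedBall_zero_iff, norm_smul, norm_inv, norm_norm, inv_mul_le_iff₀ hzp, mul_one]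
      exact huz
    · rw [mem_sphere_zero_iff_norm, norm_smul, norm_inv, norm_norm, inv_mul_cancel₀ hzp.ne']
    · have := h.closure_smul ‖z‖⁻¹ (by positivity) _ h1
      rwa [smul_add] at this
    · have := h.closure_smul ‖z‖⁻¹ (by positivity) _ h2
      rwa [smul_sub] at this
  rcases S.eq_empty_or_nonempty with hemp | hne
  · refine ⟨1, one_pos, fun u z h1 h2 => ?_⟩
    by_contra hcon
    have hz : z ≠ 0 := by
      rintro rfl
      rw [norm_zero, one_mul] at hcon
      exact hcon (norm_nonneg u)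
    have := hscale u z h1 h2 hz (by linarith)
    rw [hemp] at this
    exact this
  · obtain ⟨p, hp, hmin⟩ := hcomp.exists_isMinOn hne
      (continuous_fst.norm.continuousOn (s := S))
    have hm : 0 < ‖p.1‖ := by
      rw [norm_pos_iff]
      intro h0
      obtain ⟨⟨-, hp2⟩, hp3, hp4⟩ := hp
      rw [h0, zero_add] at hp3
      rw [h0, zero_sub] at hp4
      have := h.pointed _ hp3 hp4
      rw [mem_sphere_zero_iff_norm, this, norm_zero] at hp2
      exact zero_ne_one hp2
    refine ⟨max 1 ‖p.1‖⁻¹, lt_of_lt_of_le one_pos (le_max_left _ _), fun u z h1 h2 => ?_⟩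
    rcases le_total ‖z‖ ‖u‖ with hzu | hzu
    · calc ‖z‖ ≤ 1 * ‖u‖ := by linarith
        _ ≤ _ := mul_le_mul_of_nonneg_right (le_max_left _ _) (norm_nonneg _)
    · by_cases hz : z = 0
      · rw [hz, norm_zero]
        positivity
      have hzp : 0 < ‖z‖ := norm_pos_iff.2 hz
      have h3 := hmin (hscale u z h1 h2 hz hzu)
      simp only [Set.mem_ofPred_eq] at h3
      rw [norm_smul, norm_inv, norm_norm, ← div_eq_inv_mul, le_div_iff₀ hzp] at h3
      calc ‖z‖ ≤ ‖p.1‖⁻¹ * ‖u‖ := by
            rw [le_inv_mul_iff₀ hm]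
            exact h3
        _ ≤ _ := mul_le_mul_of_nonneg_right (le_max_right _ _) (norm_nonneg _)

theorem unif (h : IsAmp C) {Q : Set (V n)} (hQ : IsCompact Q) (hQC : Q ⊆ C) :
    ∃ ε : ℝ, 0 < ε ∧ ∀ x ∈ Q, ∀ y : V n, ‖y‖ ≤ ε → x + y ∈ C ∧ x - y ∈ C := by
  obtain ⟨δ, hδ, hsub⟩ := hQ.exists_cthickening_subset_open h.op hQC
  refine ⟨δ, hδ, fun x hx y hy => ⟨hsub ?_, hsub ?_⟩⟩
  · refine Metric.mem_cthickening_of_dist_le _ x δ Q hx ?_
    rw [dist_eq_norm, add_sub_cancel_left]
    exact hy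
  · refine Metric.mem_cthickening_of_dist_le _ x δ Q hx ?_
    rw [dist_eq_norm, sub_sub_cancel_left, norm_neg]
    exact hy

theorem proper (h : IsAmp C) (G : Subgroup (GL (Fin n) ℤ)) (hG : ∀ g ∈ G, ∀ x ∈ C, act g x ∈ C)
    {Q : Set (V n)} (hQ : IsCompact Q) (hQC : Q ⊆ C) (R : ℝ) :
    {g : GL (Fin n) ℤ | g ∈ G ∧ ∃ x ∈ Q, ‖act g x‖ ≤ R}.Finite := by
  obtain ⟨K, hK, hnorm⟩ := normal h
  obtain ⟨ε, hε, hun⟩ := unif h hQ hQC
  set B : ℝ := K * R / ε with hB
  set M : ℤ := ⌈B⌉ with hM
  have hfin : (Set.Icc (fun _ _ => -M : Fin n → Fin n → ℤ) (fun _ _ => M)).Finite :=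
    Set.finite_Icc _ _
  set F : GL (Fin n) ℤ → Fin n → Fin n → ℤ := fun g i j =>
    (g : Matrix (Fin n) (Fin n) ℤ) i j with hF
  have hFinj : Function.Injective F := by
    intro g g' hgg
    apply Units.ext
    ext i j
    exact congrFun (congrFun hgg i) j
  refine (hfin.preimage (f := F) hFinj.injOn).subset ?_
  rintro g ⟨hg, x, hx, hxR⟩
  have hentry : ∀ i j, |((F g i j : ℤ) : ℝ)| ≤ B := by
    intro i j
    set y : V n := ε • (Pi.single j (1 : ℝ)) with hy
    have hynorm : ‖y‖ ≤ ε := by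
      rw [hy, norm_smul, Real.norm_of_nonneg hε.le, Pi.norm_single, norm_one, mul_one]
    obtain ⟨h1, h2⟩ := hun x hx y hynorm
    have h3 := hG g hg _ h1
    have h4 := hG g hg _ h2
    have e1 : act g (x + y) = act g x + act g y := act_add g x y
    have e2 : act g (x - y) = act g x - act g y := by
      have : act g (x - y) = act g (x + (-1 : ℝ) • y) := by
        rw [neg_one_smul, sub_eq_add_neg]
      rw [this, act_add, act_smul, neg_one_smul, sub_eq_add_neg]
    rw [e1] at h3
    rw [e2] at h4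
    have h5 := hnorm _ _ (subset_closure h3) (subset_closure h4)
    have h6 : ‖act g y‖ ≤ K * R := h5.trans (mul_le_mul_of_nonneg_left hxR hK.le)
    have h7 : act g y i = ε * ((F g i j : ℤ) : ℝ) := by
      rw [hy, act_smul, Pi.smul_apply, smul_eq_mul]
      congr 1
      simp [act, hF]
    have h8 := norm_le_pi_norm (act g y) i
    rw [h7, Real.norm_eq_abs, abs_mul, abs_of_pos hε] at h8
    rw [hB, le_div_iff₀ hε]
    linarith
  constructor
  · intro i j
    have h1 := (abs_le.1 (hentry i j)).1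
    have h2 : (-(M : ℝ)) ≤ ((F g i j : ℤ) : ℝ) := by
      have := Int.le_ceil B
      rw [← hM] at this
      linarith
    exact_mod_cast h2
  · intro i j
    have h1 := (abs_le.1 (hentry i j)).2
    have h2 : ((F g i j : ℤ) : ℝ) ≤ M := by
      have := Int.le_ceil B
      rw [← hM] at this
      linarith
    exact_mod_cast h2

end Pool.Agent.H57.KM
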