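import Pool.Agent.H57.KM.Basic

/-!
[H57 KM ORTH]  A pointed cone with a cocompact diagonal group is the positive orthant, and cocompactness.

`orth`: `k = card ι`, `k ≥ 1` may be assumed (if `ι` is empty then `V n` is zero, `C = {0} = univ`).  Let `e_i` be the vector with `X e_i = Pi.single i 1`.
(1) If `v ∈ C` and `X v i ≠ 0` then `sign (X v i) • e_i ∈ closure C`: for `N ∈ ℕ` let `y i = N (k - 1)`, `y j = -N` (`j ≠ i`), `∑ y = 0`; `hcov` gives `t`; `w_N = (lam t i * |X v i|)⁻¹ • act (g t) v ∈ C`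
has `X w_N i = sign (X v i)`, `|X w_N j| = (lam t j / lam t i) |X v j| / |X v i| ≤ exp(2 M - N k) |X v j| / |X v i| → 0`.  So `w_N → sign (X v i) • e_i` (`X` is a homeomorphism:
`LinearEquiv.toContinuousLinearEquiv`).
(2) With `v = x₀`: `e_i ∈ closure C` for all `i`.  If `v ∈ C` and `X v i ≤ 0` then `v - ε e_i ∈ C` for a small `ε > 0`, with negative coordinate, so `-e_i ∈ closure C`, `e_i = 0` by
`pointed`: contradiction.  So `C ⊆ {v | ∀ i, 0 < X v i}`.
(3) Conversely the open set `{v | ∀ i, 0 < X v i}` is contained in `closure C` (nonnegative combinations of the `e_i`), so in `interior (closure C) = C`.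
`coco`: `Q = {v | ∀ i, exp (-M) ≤ X v i ≤ exp M}` compact (image of a box under `X.symm`).  For `x ∈ C` let `a = (∑ log (X x i)) / k`, `y i = a - log (X x i)`, `∑ y = 0`, `t` from `hcov`:
`log (X (act (g t) x) i) = log (lam t i) + log (X x i) ∈ [a - M, a + M]`, so `act (g t) x = exp a • q`, `q ∈ Q`, `x = exp a • act (g t)⁻¹ q`.  (`ι` empty: everything is zero; treat it separately or
note that the formulas still work.)  `g t ∈ G` is assumed.
-/

set_option autoImplicit false

namespace Pool.Agent.H57.KM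

variable {n : ℕ} {C : Set (V n)} {ι T : Type} [Fintype ι]

private theorem cont_X (X : V n ≃ₗ[ℝ] (ι → ℝ)) : Continuous X :=
  LinearMap.continuous_of_finiteDimensional (X : V n →ₗ[ℝ] (ι → ℝ))

private theorem cont_Xs (X : V n ≃ₗ[ℝ] (ι → ℝ)) : Continuous X.symm :=
  LinearMap.continuous_of_finiteDimensional (X.symm : (ι → ℝ) →ₗ[ℝ] V n)

private theorem dir [DecidableEq ι] (h : IsAmp C) (X : V n ≃ₗ[ℝ] (ι → ℝ)) (g : T → GL (Fin n) ℤ)
    (lam : T → ι → ℝ)
    (hlam : ∀ t i, 0 < lam t i) (hX : ∀ t v i, X (act (g t) v) i = lam t i * X v i)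
    (hC : ∀ t, ∀ x ∈ C, act (g t) x ∈ C) (M : ℝ)
    (hcov : ∀ y : ι → ℝ, ∑ i, y i = 0 → ∃ t, ∀ i, |Real.log (lam t i) - y i| ≤ M)
    {v : V n} (hv : v ∈ C) (i : ι) (hi : X v i ≠ 0) :
    X.symm (Pi.single i (X v i / |X v i|)) ∈ closure C := by
  have hk : 1 ≤ Fintype.card ι := Fintype.card_pos_iff.2 ⟨i⟩
  have hk' : (1 : ℝ) ≤ Fintype.card ι := by exact_mod_cast hk
  have hy : ∀ N : ℕ, ∑ j : ι, (-(N : ℝ) + if j = i then (N : ℝ) * Fintype.card ι else 0) = 0 := by
    intro N
    rw [Finset.sum_add_distrib, Finset.sum_ite_eq' Finset.univ i, if_pos (Finset.mem_univ i),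
      Finset.sum_const, Finset.card_univ, nsmul_eq_mul]
    ring
  choose t ht using fun N : ℕ => hcov _ (hy N)
  have hiabs : 0 < |X v i| := abs_pos.2 hi
  have hexp : ∀ N : ℕ, ∀ j, j ≠ i → lam (t N) j / lam (t N) i ≤ Real.exp (2 * M) * Real.exp (-(N : ℝ)) := by
    intro N j hj
    have h1 := (abs_le.1 (ht N j)).2
    have h2 := (abs_le.1 (ht N i)).1
    rw [if_neg hj, add_zero] at h1
    rw [if_pos rfl] at h2
    rw [← Real.exp_log (hlam (t N) j), ← Real.exp_log (hlam (t N) i), ← Real.exp_sub, ← Real.exp_add]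
    apply Real.exp_le_exp.2
    have h3 : (N : ℝ) * 1 ≤ N * Fintype.card ι := mul_le_mul_of_nonneg_left hk' (Nat.cast_nonneg N)
    linarith
  let w : ℕ → V n := fun N => (lam (t N) i * |X v i|)⁻¹ • act (g (t N)) v
  have hw : ∀ N, w N ∈ C := fun N =>
    h.smul _ (inv_pos.2 (mul_pos (hlam _ _) hiabs)) _ (hC _ v hv)
  have hXw : ∀ N j, X (w N) j = lam (t N) j / lam (t N) i * (X v j / |X v i|) := by
    intro N j
    have h0 := (hlam (t N) i).ne'
    have h1 := hiabs.ne'
    simp only [w]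
    rw [map_smul, Pi.smul_apply, smul_eq_mul, hX]
    field_simp
  have hlim : Filter.Tendsto (fun N => X (w N)) Filter.atTop (nhds (Pi.single i (X v i / |X v i|))) := by
    rw [tendsto_pi_nhds]
    intro j
    by_cases hj : j = i
    · subst hj
      rw [Pi.single_eq_same]
      have h1 : (fun N => X (w N) j) = fun _ => X v j / |X v j| := by
        funext N
        rw [hXw, div_self (hlam _ _).ne', one_mul]
      rw [h1]
      exact tendsto_const_nhds
    · rw [Pi.single_eq_of_ne hj]
      refine squeeze_zero_norm (a := fun N : ℕ => Real.exp (2 * M) * Real.exp (-(N : ℝ)) *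
        abs (X v j / |X v i|)) (fun N => ?_) ?_
      · rw [hXw, Real.norm_eq_abs, abs_mul, abs_of_pos (div_pos (hlam _ _) (hlam _ _))]
        exact mul_le_mul_of_nonneg_right (hexp N j hj) (abs_nonneg _)
      · have h1 : Filter.Tendsto (fun N : ℕ => Real.exp (-(N : ℝ))) Filter.atTop (nhds 0) :=
          Real.tendsto_exp_neg_atTop_nhds_zero.comp tendsto_natCast_atTop_atTop
        have h2 := (h1.const_mul (Real.exp (2 * M))).mul_const (abs (X v j / |X v i|))
        simpa using h2
  have hlim2 : Filter.Tendsto w Filter.atTop (nhds (X.symm (Pi.single i (X v i / |X v i|)))) := by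
    have h1 := ((cont_Xs X).tendsto _).comp hlim
    have h2 : (X.symm ∘ fun N => X (w N)) = w := by
      funext N
      simp
    rw [h2] at h1
    exact h1
  exact mem_closure_of_tendsto hlim2 (Filter.Eventually.of_forall hw)

theorem orth (h : IsAmp C) (X : V n ≃ₗ[ℝ] (ι → ℝ)) (g : T → GL (Fin n) ℤ) (lam : T → ι → ℝ)
    (hlam : ∀ t i, 0 < lam t i) (hX : ∀ t v i, X (act (g t) v) i = lam t i * X v i)
    (hC : ∀ t, ∀ x ∈ C, act (g t) x ∈ C) (M : ℝ)
    (hcov : ∀ y : ι → ℝ, ∑ i, y i = 0 → ∃ t, ∀ i, |Real.log (lam t i) - y i| ≤ M)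
    {x₀ : V n} (hx₀ : x₀ ∈ C) (hpos : ∀ i, 0 < X x₀ i) :
    C = {v | ∀ i, 0 < X v i} := by
  classical
  have he : ∀ i, X.symm (Pi.single i 1) ∈ closure C := by
    intro i
    have h1 := dir h X g lam hlam hX hC M hcov hx₀ i (hpos i).ne'
    rw [abs_of_pos (hpos i), div_self (hpos i).ne'] at h1
    exact h1
  have hneg : ∀ v ∈ C, ∀ i, 0 ≤ X v i := by
    intro v hv i
    by_contra hlt
    push Not at hlt
    have h1 := dir h X g lam hlam hX hC M hcov hv i hlt.ne
    rw [abs_of_neg hlt, div_neg, div_self hlt.ne] at h1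
    have h2 : X.symm (Pi.single i (-1 : ℝ)) = -X.symm (Pi.single i 1) := by
      rw [← map_neg, ← Pi.single_neg]
    rw [h2] at h1
    have h3 := h.pointed _ (he i) h1
    have h4 : (Pi.single i (1 : ℝ) : ι → ℝ) = 0 := by
      have := congrArg X h3
      simpa using this
    have h5 := congrFun h4 i
    simp at h5
  have hpos' : ∀ v ∈ C, ∀ i, 0 < X v i := by
    intro v hv i
    have hU : IsOpen {c : ℝ | v - c • X.symm (Pi.single i 1) ∈ C} :=
      h.op.preimage (continuous_const.sub (continuous_id.smul continuous_const))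
    have h0 : (0 : ℝ) ∈ {c : ℝ | v - c • X.symm (Pi.single i 1) ∈ C} := by
      change v - (0 : ℝ) • X.symm (Pi.single i 1) ∈ C
      rw [zero_smul, sub_zero]
      exact hv
    obtain ⟨ε, hε, hball⟩ := Metric.isOpen_iff.1 hU 0 h0
    have h1 : (ε / 2) ∈ {c : ℝ | v - c • X.symm (Pi.single i 1) ∈ C} := by
      apply hball
      rw [mem_ball_zero_iff, Real.norm_eq_abs, abs_of_pos (by positivity)]
      linarith
    have h2 := hneg _ h1 i
    rw [map_sub, map_smul, Pi.sub_apply, Pi.smul_apply, LinearEquiv.apply_symm_apply,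
      Pi.single_eq_same, smul_eq_mul] at h2
    linarith
  apply Set.Subset.antisymm
  · intro v hv i
    exact hpos' v hv i
  · have hopen : IsOpen {v : V n | ∀ i, 0 < X v i} := by
      have : {v : V n | ∀ i, 0 < X v i} = ⋂ i, {v : V n | 0 < X v i} := by
        ext v; simp
      rw [this]
      exact isOpen_iInter_of_finite (fun i =>
        isOpen_lt continuous_const ((continuous_apply i).comp (cont_X X)))
    have hsub : {v : V n | ∀ i, 0 < X v i} ⊆ closure C := by
      intro v hv
      have h1 : v = ∑ i, X v i • X.symm (Pi.single i 1) := by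
        apply X.injective
        rw [map_sum]
        funext j
        simp only [map_smul, LinearEquiv.apply_symm_apply, Finset.sum_apply, Pi.smul_apply,
          smul_eq_mul]
        rw [Finset.sum_eq_single j]
        · simp
        · intro i _ hi
          rw [Pi.single_eq_of_ne (Ne.symm hi), mul_zero]
        · intro hj
          exact absurd (Finset.mem_univ j) hj
      rw [h1]
      refine Finset.sum_induction _ (fun z => z ∈ closure C) (fun a b ha hb => h.closure_add a ha b hb)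
        h.zero_closure (fun i _ => h.closure_smul _ (hv i).le _ (he i))
    rw [← h.interior_closure]
    exact interior_maximal hsub hopen

theorem coco (G : Subgroup (GL (Fin n) ℤ)) (X : V n ≃ₗ[ℝ] (ι → ℝ)) (g : T → GL (Fin n) ℤ) (hgG : ∀ t, g t ∈ G)
    (lam : T → ι → ℝ)
    (hlam : ∀ t i, 0 < lam t i) (hX : ∀ t v i, X (act (g t) v) i = lam t i * X v i) (M : ℝ)
    (hcov : ∀ y : ι → ℝ, ∑ i, y i = 0 → ∃ t, ∀ i, |Real.log (lam t i) - y i| ≤ M)
    (hCX : C = {v | ∀ i, 0 < X v i}) :
    ∃ Q : Set (V n), IsCompact Q ∧ Q ⊆ C ∧ ∀ x ∈ C, ∃ g ∈ G, ∃ t : ℝ, 0 < t ∧ ∃ q ∈ Q, x = t • act g q := by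
  classical
  refine ⟨X.symm '' (Set.pi Set.univ (fun _ => Set.Icc (Real.exp (-M)) (Real.exp M))), ?_, ?_, ?_⟩
  · exact (isCompact_univ_pi (fun _ => isCompact_Icc)).image (cont_Xs X)
  · rintro _ ⟨y, hy, rfl⟩
    rw [hCX]
    intro i
    rw [LinearEquiv.apply_symm_apply]
    exact lt_of_lt_of_le (Real.exp_pos _) (hy i (Set.mem_univ i)).1
  · intro x hx
    rw [hCX] at hx
    have hx' : ∀ i, 0 < X x i := hx
    obtain ⟨a, ha⟩ : ∃ a : ℝ, ∑ i, (a - Real.log (X x i)) = 0 := by
      by_cases hι : Fintype.card ι = 0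
      · have : IsEmpty ι := Fintype.card_eq_zero_iff.1 hι
        exact ⟨0, by simp⟩
      · have hι' : (Fintype.card ι : ℝ) ≠ 0 := by exact_mod_cast hι
        refine ⟨(∑ i, Real.log (X x i)) / Fintype.card ι, ?_⟩
        rw [Finset.sum_sub_distrib, Finset.sum_const, Finset.card_univ, nsmul_eq_mul]
        field_simp
        ring
    obtain ⟨t, ht⟩ := hcov _ ha
    refine ⟨(g t)⁻¹, G.inv_mem (hgG t), Real.exp a, Real.exp_pos a,
      (Real.exp a)⁻¹ • act (g t) x, ?_, ?_⟩
    · refine ⟨X ((Real.exp a)⁻¹ • act (g t) x), ?_, X.symm_apply_apply _⟩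
      intro i _
      have h1 := abs_le.1 (ht i)
      have h2 : X ((Real.exp a)⁻¹ • act (g t) x) i =
          Real.exp (Real.log (lam t i) + Real.log (X x i) - a) := by
        rw [map_smul, Pi.smul_apply, smul_eq_mul, hX, Real.exp_sub, Real.exp_add,
          Real.exp_log (hlam t i), Real.exp_log (hx' i)]
        field_simp
      rw [h2]
      constructor
      · apply Real.exp_le_exp.2
        linarith [h1.1]
      · apply Real.exp_le_exp.2
        linarith [h1.2]
    · rw [act_smul, smul_smul, mul_inv_cancel₀ (Real.exp_pos a).ne', one_smul, ← act_mul,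
        inv_mul_cancel, act_one]

end Pool.Agent.H57.KM
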