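import Pool.Agent.H57.KM.AlgField
import Pool.Agent.H57.KM.Norm

/-!
[H57 KM STRUCT]  The number field.

Write `M t` for the rational matrix `(f t).map Int.cast`.  `E = Algebra.adjoin ℚ (Set.range M)`, a subalgebra of `Matrix (Fin (r+1)) (Fin (r+1)) ℚ`, commutative
(`Algebra.adjoinCommRingOfComm`).  `x : Fin (r+1) → ℤ` with `toR x ∈ C` (`exists_int`), `x ≠ 0` as a rational vector `xq` (if `r + 1 > 0` then `0 ∉ C`: otherwise `C` contains a neighbourhood
of `0`, against `pointed`).  `ev : E → ℚ^(r+1)`, `e ↦ e *ᵥ xq`, `ℚ`-linear; `N = {e | ev e = 0}` is an ideal (commutativity).  `K = E ⧸ N` is a commutative `ℚ`-algebra,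
nontrivial (`ev 1 = xq ≠ 0`), and `ev` induces an injective linear map `ψ : K → ℚ^(r+1)`, so `finrank ℚ K ≤ r + 1`.
`α t` = the class of `M t` in `Kˣ`.  Injective: if `α t = 1` then `M t x = x`, so `act (f t) (toR x) = toR x`, also for all multiples `k t`: infinitely many elements (`f` is
injective, `ℤ^r` is torsion free) in the finite set of `proper` with `Q = {toR x}`, `R = ‖toR x‖`, unless `t = 0` (with `G = {g | g C ⊆ C and g⁻¹ C ⊆ C}` or the range of `f`).
Integral: `M t` is integral over `ℤ` (Cayley-Hamilton for integral matrices: `Matrix.isIntegral`, mapped by `Int.cast`; integrality in the subalgebra `E`, then in the quotient).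
`hcond`: `z ^ 2 = 0`, `α t = 1 + z`: `α (k t) = (1 + z)^k = 1 + k z` for `k ∈ ℤ`, so `act (f (k t)) x = x + k w`, `w = ψ z` (as a real vector), in `C` for all integers `k`;
dividing by `k → ± ∞`: `± w ∈ closure C`, so `w = 0` and `z = 0`.
`alg_field`: `K` is a field (`IsField.toField`), `NumberField K` (characteristic zero, finite dimensional), `finrank ℚ K = r + 1`, so `ψ` is bijective: `φ`.  `φ 1 = xq`.
`φ (α t * k) = M t *ᵥ φ k` by construction, then `act_qR`.  The values of `α` are units of `𝓞 K` (integral with integral inverse).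
Caution: the `Field` structure on `E ⧸ N` must induce the given ring structure (use `IsField.toField`, which extends the ring structure definitionally, or transport everything to a
type synonym).
-/

set_option autoImplicit false

namespace Pool.Agent.H57.KM

open NumberField

private theorem fd_aux (K : Type) [Field K] [CharZero K] (iA : Algebra ℚ K)
    (h : @Module.Finite ℚ K _ _ iA.toModule) : NumberField K := by
  have e : iA = DivisionRing.toRatAlgebra := Subsingleton.elim _ _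
  subst e
  exact @NumberField.mk K _ _ h

private theorem toNF1 {r : ℕ} {C : Set (V (r + 1))}
    (f : Multiplicative (Fin r → ℤ) →* GL (Fin (r + 1)) ℤ)
    (K : Type) [Field K] [NumberField K]
    (α : Multiplicative (Fin r → ℤ) →* Kˣ) (hα : Function.Injective α)
    (hint : ∀ t, IsIntegral ℤ ((α t : Kˣ) : K))
    (hreal : ∀ χ : K →+* ℂ, ∀ k, (χ k).im = 0)
    (ψ : K ≃+ (Fin (r + 1) → ℚ)) (h1 : qR (ψ 1) ∈ C)
    (hmul : ∀ t k, qR (ψ (((α t : Kˣ) : K) * k)) = act (f t) (qR (ψ k))) :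
    ∃ (K : Type) (_ : Field K) (_ : NumberField K) (α : Multiplicative (Fin r → ℤ) →* (𝓞 K)ˣ)
      (φ : K ≃ₗ[ℚ] (Fin (r + 1) → ℚ)),
      Function.Injective α ∧ (∀ χ : K →+* ℂ, ∀ k, (χ k).im = 0) ∧ qR (φ 1) ∈ C ∧
        ∀ t k, qR (φ ((((α t : (𝓞 K)ˣ) : 𝓞 K) : K) * k)) = act (f t) (qR (φ k)) := by
  let a0 : Multiplicative (Fin r → ℤ) →* 𝓞 K :=
    { toFun := fun t => ⟨((α t : Kˣ) : K), hint t⟩
      map_one' := by
        apply RingOfIntegers.ext
        change ((α 1 : Kˣ) : K) = ((1 : 𝓞 K) : K)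
        rw [map_one, Units.val_one]
        exact (map_one (algebraMap (𝓞 K) K)).symm
      map_mul' := fun s t => by
        apply RingOfIntegers.ext
        refine Eq.trans ?_ (map_mul (algebraMap (𝓞 K) K) _ _).symm
        change ((α (s * t) : Kˣ) : K) = ((α s : Kˣ) : K) * ((α t : Kˣ) : K)
        rw [map_mul, Units.val_mul] }
  let a1 : Multiplicative (Fin r → ℤ) →* (𝓞 K)ˣ := a0.toHomUnits
  have ha1 : ∀ t, (((a1 t : (𝓞 K)ˣ) : 𝓞 K) : K) = ((α t : Kˣ) : K) := fun t => rfl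
  let φ : K ≃ₗ[ℚ] (Fin (r + 1) → ℚ) :=
    { ψ with
      map_smul' := fun c x => by
        have h := (AddMonoidHom.toRatLinearMap (ψ : K →+ (Fin (r + 1) → ℚ))).map_smul c x
        exact h }
  refine ⟨K, inferInstance, inferInstance, a1, φ, ?_, hreal, h1, ?_⟩
  · intro s t hst
    apply hα
    apply Units.ext
    rw [← ha1, ← ha1, hst]
  · intro t k
    rw [ha1]
    exact hmul t k

private theorem toNF {r : ℕ} {C : Set (V (r + 1))}
    (f : Multiplicative (Fin r → ℤ) →* GL (Fin (r + 1)) ℤ)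
    (K : Type) [CommRing K] [Algebra ℚ K] [Module.Finite ℚ K] (hK : IsField K)
    (α : Multiplicative (Fin r → ℤ) →* Kˣ) (hα : Function.Injective α)
    (hint : ∀ t, IsIntegral ℤ ((α t : Kˣ) : K))
    (hreal : ∀ χ : K →+* ℂ, ∀ k, (χ k).im = 0)
    (ψ : K ≃+ (Fin (r + 1) → ℚ)) (h1 : qR (ψ 1) ∈ C)
    (hmul : ∀ t k, qR (ψ (((α t : Kˣ) : K) * k)) = act (f t) (qR (ψ k))) :
    ∃ (K : Type) (_ : Field K) (_ : NumberField K) (α : Multiplicative (Fin r → ℤ) →* (𝓞 K)ˣ)
      (φ : K ≃ₗ[ℚ] (Fin (r + 1) → ℚ)),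
      Function.Injective α ∧ (∀ χ : K →+* ℂ, ∀ k, (χ k).im = 0) ∧ qR (φ 1) ∈ C ∧
        ∀ t k, qR (φ ((((α t : (𝓞 K)ˣ) : 𝓞 K) : K) * k)) = act (f t) (qR (φ k)) := by
  have hnt : Nontrivial K := hK.nontrivial
  have hc0 : CharZero K := algebraRat.charZero K
  let iF : Field K := hK.toField
  have iN : NumberField K := fd_aux K ‹Algebra ℚ K› ‹Module.Finite ℚ K›
  exact toNF1 f K α hα hint hreal ψ h1 hmul

private theorem one_add_pow {K : Type} [CommRing K] {z : K} (hz : z ^ 2 = 0) (k : ℕ) :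
    (1 + z) ^ k = 1 + (k : K) * z := by
  induction k with
  | zero => simp
  | succ k ih =>
    rw [pow_succ, ih]
    push_cast
    linear_combination (k : K) * hz

private theorem nat_mul_eq {K : Type} [CommRing K] [Algebra ℚ K] (k : ℕ) (z : K) :
    (k : K) * z = (k : ℚ) • z := by
  rw [Algebra.smul_def, map_natCast]

private theorem neg_sq_zero {K : Type} [CommRing K] {z : K} (hz : z ^ 2 = 0) : (-z) ^ 2 = 0 := by
  rw [neg_sq, hz]

private theorem inv_eq {K : Type} [CommRing K] {z : K} (hz : z ^ 2 = 0) (u : Kˣ) (hu : (u : K) = 1 + z) :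
    ((u⁻¹ : Kˣ) : K) = 1 + -z := by
  refine Units.inv_eq_of_mul_eq_one_right ?_
  rw [hu]
  linear_combination -hz

private theorem pow_inj {r : ℕ} {t : Multiplicative (Fin r → ℤ)} (ht : t ≠ 1) :
    Function.Injective (fun k : ℕ => t ^ k) := by
  intro k l hkl
  have h0 : Multiplicative.toAdd t ≠ 0 := fun h => ht (by
    apply Multiplicative.toAdd.injective
    rw [h]; rfl)
  have h1 : k • Multiplicative.toAdd t = l • Multiplicative.toAdd t := by
    have := congrArg Multiplicative.toAdd hkl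
    simpa using this
  obtain ⟨i, hi⟩ := Function.ne_iff.1 h0
  have h2 := congrFun h1 i
  simp only [Pi.smul_apply, nsmul_eq_mul] at h2
  have h3 := mul_right_cancel₀ hi h2
  exact_mod_cast h3

private theorem lim_mem {n : ℕ} {C : Set (V n)} (h : IsAmp C) {x w : V n}
    (hx : ∀ k : ℕ, x + (k : ℝ) • w ∈ C) : w ∈ closure C := by
  have h1 : Filter.Tendsto (fun k : ℕ => ((1 : ℝ) / ((k : ℝ) + 1)) • x + w) Filter.atTop (nhds w) := by
    have h2 := (tendsto_one_div_add_atTop_nhds_zero_nat (𝕜 := ℝ)).smul_const x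
    have h3 := h2.add_const w
    simpa using h3
  refine mem_closure_of_tendsto h1 (Filter.Eventually.of_forall (fun k => ?_))
  have h4 := h.smul (1 / ((k : ℝ) + 1)) (by positivity) _ (hx (k + 1))
  convert h4 using 1
  rw [smul_add, smul_smul]
  congr 1
  have h5 : (0 : ℝ) < (k : ℝ) + 1 := by positivity
  push_cast
  rw [one_div, inv_mul_cancel₀ h5.ne', one_smul]

theorem struct {r : ℕ} {C : Set (V (r + 1))} (h : IsAmp C)
    (f : Multiplicative (Fin r → ℤ) →* GL (Fin (r + 1)) ℤ) (hf : Function.Injective f)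
    (hfC : ∀ t, ∀ x ∈ C, act (f t) x ∈ C) :
    ∃ (K : Type) (_ : Field K) (_ : NumberField K) (α : Multiplicative (Fin r → ℤ) →* (𝓞 K)ˣ)
      (φ : K ≃ₗ[ℚ] (Fin (r + 1) → ℚ)),
      Function.Injective α ∧ (∀ χ : K →+* ℂ, ∀ k, (χ k).im = 0) ∧ qR (φ 1) ∈ C ∧
        ∀ t k, qR (φ ((((α t : (𝓞 K)ˣ) : 𝓞 K) : K) * k)) = act (f t) (qR (φ k)) := by
  classical
  obtain ⟨s0, hs0⟩ := h.exists_int
  obtain ⟨xq, hxq⟩ : ∃ xq : Fin (r + 1) → ℚ, xq = fun i => (s0 i : ℚ) := ⟨_, rfl⟩
  have hx0 : qR xq = toR s0 := by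
    funext i
    rw [hxq]
    simp [qR, toR]
  have hxC : qR xq ∈ C := by rw [hx0]; exact hs0
  have hxne : xq ≠ 0 := by
    intro h0
    have hC0 : (0 : V (r + 1)) ∈ C := by
      have : qR (0 : Fin (r + 1) → ℚ) = 0 := by funext i; simp [qR]
      rw [← this, ← h0]
      exact hxC
    obtain ⟨ε, hε, hball⟩ := Metric.isOpen_iff.1 h.op 0 hC0
    have hv : ∀ c : ℝ, |c| < ε → (fun _ => c : V (r + 1)) ∈ C := by
      intro c hc
      apply hball
      rw [mem_ball_zero_iff, pi_norm_lt_iff hε]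
      intro i
      exact hc
    have h1 := hv (ε / 2) (by rw [abs_of_pos (by positivity)]; linarith)
    have h2 := hv (-(ε / 2)) (by rw [abs_neg, abs_of_pos (by positivity)]; linarith)
    have h3 := h.pointed _ (subset_closure h1) (by
      have : -(fun _ => ε / 2 : V (r + 1)) = (fun _ => -(ε / 2)) := by funext i; simp
      rw [this]
      exact subset_closure h2)
    have h4 := congrFun h3 0
    simp only [Pi.zero_apply] at h4
    linarith
  let cast : Matrix (Fin (r + 1)) (Fin (r + 1)) ℤ →+* Matrix (Fin (r + 1)) (Fin (r + 1)) ℚ :=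
    (Int.castRingHom ℚ).mapMatrix
  let Mq : Multiplicative (Fin r → ℤ) →* Matrix (Fin (r + 1)) (Fin (r + 1)) ℚ :=
    (cast : Matrix (Fin (r + 1)) (Fin (r + 1)) ℤ →* Matrix (Fin (r + 1)) (Fin (r + 1)) ℚ).comp
      ((Units.coeHom _).comp f)
  let R := MonoidAlgebra ℚ (Multiplicative (Fin r → ℤ))
  let Φ : R →ₐ[ℚ] Matrix (Fin (r + 1)) (Fin (r + 1)) ℚ := MonoidAlgebra.lift ℚ _ _ Mq
  have hΦof : ∀ t, Φ (MonoidAlgebra.of ℚ _ t) = Mq t := fun t => MonoidAlgebra.lift_of Mq t
  have hact : ∀ t q, act (f t) (qR q) = qR ((Mq t).mulVec q) := fun t q => act_qR (f t) q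
  let L : R →ₗ[ℚ] (Fin (r + 1) → ℚ) :=
    { toFun := fun e => (Φ e).mulVec xq
      map_add' := fun a b => by rw [map_add, Matrix.add_mulVec]
      map_smul' := fun c a => by rw [map_smul, Matrix.smul_mulVec, RingHom.id_apply] }
  have hLdef : ∀ e, L e = (Φ e).mulVec xq := fun e => rfl
  have hLmul : ∀ a e, L (a * e) = (Φ a).mulVec (L e) := by
    intro a e
    rw [hLdef, hLdef, map_mul, Matrix.mulVec_mulVec]
  have hL1 : L 1 = xq := by
    rw [hLdef, map_one, Matrix.one_mulVec]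
  let N : Ideal R :=
    { carrier := {e | L e = 0}
      add_mem' := by
        intro a b ha hb
        simp only [Set.mem_ofPred_eq] at *
        rw [map_add, ha, hb, add_zero]
      zero_mem' := by
        simp only [Set.mem_ofPred_eq]
        exact map_zero L
      smul_mem' := by
        intro c e he
        simp only [Set.mem_ofPred_eq, smul_eq_mul] at *
        rw [hLmul, he, Matrix.mulVec_zero] }
  have hN : ∀ e, e ∈ N ↔ L e = 0 := fun e => Iff.rfl
  let ψ0 : (R ⧸ N) →ₗ[ℚ] (Fin (r + 1) → ℚ) :=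
    ((N.restrictScalars ℚ).liftQ L (fun e he => he)).comp
      (Submodule.Quotient.restrictScalarsEquiv ℚ N).symm.toLinearMap
  have hψ : ∀ e, ψ0 (Ideal.Quotient.mk N e) = L e := fun e => rfl
  have hinj : Function.Injective ψ0 := by
    rw [injective_iff_map_eq_zero]
    intro x hx
    obtain ⟨e, rfl⟩ := Ideal.Quotient.mk_surjective x
    rw [hψ] at hx
    exact Ideal.Quotient.eq_zero_iff_mem.2 ((hN e).2 hx)
  have hψ1 : ψ0 1 = xq := by
    rw [← map_one (Ideal.Quotient.mk N), hψ, hL1]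
  have hfin : Module.Finite ℚ (R ⧸ N) := Module.Finite.of_injective ψ0 hinj
  have hrank : Module.finrank ℚ (R ⧸ N) ≤ r + 1 := by
    have := LinearMap.finrank_le_finrank_of_injective hinj
    simpa using this
  have hnt : Nontrivial (R ⧸ N) := by
    refine ⟨1, 0, fun h0 => hxne ?_⟩
    rw [← hψ1, h0, map_zero]
  let α : Multiplicative (Fin r → ℤ) →* (R ⧸ N)ˣ :=
    MonoidHom.toHomUnits (((Ideal.Quotient.mk N : R →+* R ⧸ N) : R →* R ⧸ N).comp (MonoidAlgebra.of ℚ _))
  have hα : ∀ t, ((α t : (R ⧸ N)ˣ) : R ⧸ N) = Ideal.Quotient.mk N (MonoidAlgebra.of ℚ _ t) := fun t => rfl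
  have hψmul : ∀ t k, ψ0 (((α t : (R ⧸ N)ˣ) : R ⧸ N) * k) = (Mq t).mulVec (ψ0 k) := by
    intro t k
    obtain ⟨e, rfl⟩ := Ideal.Quotient.mk_surjective k
    rw [hα, ← map_mul, hψ, hψ, hLmul, hΦof]
  have hψact : ∀ t k, qR (ψ0 (((α t : (R ⧸ N)ˣ) : R ⧸ N) * k)) = act (f t) (qR (ψ0 k)) := by
    intro t k
    rw [hψmul, hact]
  have hψα : ∀ t, qR (ψ0 ((α t : (R ⧸ N)ˣ) : R ⧸ N)) = act (f t) (qR xq) := by
    intro t
    have := hψact t 1
    rw [mul_one, hψ1] at this
    exact this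
  have hαinj : Function.Injective α := by
    rw [injective_iff_map_eq_one]
    intro t ht
    by_contra htne
    have hfix : ∀ k : ℕ, act (f (t ^ k)) (qR xq) = qR xq := by
      intro k
      rw [← hψα, map_pow, ht, one_pow, Units.val_one, hψ1]
    have hfinite := proper h f.range (by
      rintro g ⟨t, rfl⟩ x hx
      exact hfC t x hx) (isCompact_singleton (x := qR xq)) (by
      intro y hy
      rw [Set.mem_singleton_iff] at hy
      rw [hy]
      exact hxC) ‖qR xq‖
    have hinf := Set.infinite_of_injective_forall_mem (hf.comp (pow_inj htne))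
      (s := {g : GL (Fin (r + 1)) ℤ | g ∈ f.range ∧ ∃ x ∈ ({qR xq} : Set (V (r + 1))),
        ‖act g x‖ ≤ ‖qR xq‖}) (by
      intro k
      refine ⟨⟨_, rfl⟩, qR xq, Set.mem_singleton _, ?_⟩
      simp only [Function.comp_apply]
      rw [hfix])
    exact hinf hfinite
  have hint : ∀ t, IsIntegral ℤ ((α t : (R ⧸ N)ˣ) : R ⧸ N) := by
    intro t
    set A : Matrix (Fin (r + 1)) (Fin (r + 1)) ℤ := (f t : Matrix (Fin (r + 1)) (Fin (r + 1)) ℤ) with hA
    refine ⟨A.charpoly, Matrix.charpoly_monic A, ?_⟩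
    have e1 : algebraMap ℤ (R ⧸ N) = (Ideal.Quotient.mk N).comp (Int.castRingHom R) := RingHom.ext_int _ _
    rw [hα, e1, ← Polynomial.hom_eval₂, Ideal.Quotient.eq_zero_iff_mem, hN, hLdef]
    have e2 : Φ (A.charpoly.eval₂ (Int.castRingHom R) (MonoidAlgebra.of ℚ _ t)) =
        A.charpoly.eval₂ (((Φ : R →+* Matrix (Fin (r + 1)) (Fin (r + 1)) ℚ)).comp (Int.castRingHom R))
          (Mq t) := by
      rw [← hΦof]
      exact Polynomial.hom_eval₂ _ _ (Φ : R →+* Matrix (Fin (r + 1)) (Fin (r + 1)) ℚ) _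
    have e3 : ((Φ : R →+* Matrix (Fin (r + 1)) (Fin (r + 1)) ℚ)).comp (Int.castRingHom R) =
        cast.comp (algebraMap ℤ (Matrix (Fin (r + 1)) (Fin (r + 1)) ℤ)) := RingHom.ext_int _ _
    have e4 : Mq t = cast A := rfl
    rw [e2, e3, e4, ← Polynomial.hom_eval₂]
    have e5 : Polynomial.eval₂ (algebraMap ℤ (Matrix (Fin (r + 1)) (Fin (r + 1)) ℤ)) A A.charpoly = 0 :=
      Matrix.aeval_self_charpoly A
    rw [e5, map_zero, Matrix.zero_mulVec]
  have hcond : ∀ t, ∀ z : R ⧸ N, z ^ 2 = 0 → ((α t : (R ⧸ N)ˣ) : R ⧸ N) = 1 + z → z = 0 := by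
    intro t z hz ht
    have hkey : ∀ (t : Multiplicative (Fin r → ℤ)) (z : R ⧸ N), z ^ 2 = 0 →
        ((α t : (R ⧸ N)ˣ) : R ⧸ N) = 1 + z → qR (ψ0 z) ∈ closure C := by
      intro t z hz ht
      refine lim_mem h (x := qR xq) (fun k => ?_)
      have e1 : ((α (t ^ k) : (R ⧸ N)ˣ) : R ⧸ N) = 1 + (k : R ⧸ N) * z := by
        rw [map_pow, Units.val_pow_eq_pow_val, ht, one_add_pow hz]
      have e2 : qR xq + (k : ℝ) • qR (ψ0 z) = act (f (t ^ k)) (qR xq) := by
        rw [← hψα, e1, map_add, hψ1]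
        have e3 : (k : R ⧸ N) * z = (k : ℚ) • z := nat_mul_eq k z
        rw [e3, map_smul]
        funext i
        simp [qR]
      rw [e2]
      exact hfC _ _ hxC
    have h1 := hkey t z hz ht
    have h2 : qR (ψ0 (-z)) ∈ closure C := by
      refine hkey t⁻¹ (-z) (neg_sq_zero hz) ?_
      rw [map_inv]
      exact inv_eq hz _ ht
    have h3 : qR (ψ0 z) = 0 := by
      refine h.pointed _ h1 ?_
      convert h2 using 1
      rw [map_neg]
      funext i
      simp [qR]
    have h4 : ψ0 z = 0 := by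
      funext i
      have := congrFun h3 i
      simp only [qR, Pi.zero_apply] at this
      simpa using this
    exact hinj (by rw [h4, map_zero])
  obtain ⟨hK, hdeg, hreal⟩ := alg_field hrank α hαinj hint hcond
  let ψ1 : (R ⧸ N) ≃ₗ[ℚ] (Fin (r + 1) → ℚ) :=
    LinearEquiv.ofInjectiveOfFinrankEq ψ0 hinj (by rw [hdeg]; simp)
  have hψ1' : ∀ k, ψ1 k = ψ0 k := fun k => rfl
  exact toNF f (R ⧸ N) hK α hαinj hint hreal ψ1.toAddEquiv (by
    change qR (ψ0 1) ∈ C
    rw [hψ1]
    exact hxC) (fun t k => hψact t k)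

end Pool.Agent.H57.KM
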